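import Pool.Agent.Helper38.TH.GoalsA
import Pool.Agent.Helper17.PP0.LRG
import Pool.Agent.Helper30.PP2.ROSA
import Pool.Agent.Helper83.PP.CLAB
import Pool.Agent.Helper22.PP.CDEC

/-!
# Project TH (MP_fc6b1e_nt, T100), packet T_LRGG (the large moduli, with a weight)
-/

set_option autoImplicit false
set_option linter.unusedSectionVars false

namespace Pool.Agent.Helper32.TH

open Finset Pool.Agent.Helper17.PP Pool.Agent.Helper17.PP0 Pool.Agent.Helper17.PP0.LRG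
open Pool.Agent.Helper38.TH (WtG HypG T_FOU)

section Main

variable {p : ℕ} [Fact p.Prime] {B B₀ k U Λ C : Type} [Field k] [Fintype k]
    [Algebra (ZMod p) k] [AddCommGroup U] [Module k U] [Fintype U]
    [AddCommGroup Λ] [Module k Λ] [Fintype Λ] [AddCommGroup C] (S : Sys p B B₀ k U Λ C)

/-- the character `w ↦ ψ (u₀ w)` of `ZMod p` -/
noncomputable def ps (ψ : AddChar k ℂ) (u₀ : k) : AddChar (ZMod p) ℂ :=
  ψ.compAddMonoidHom ((AddMonoidHom.mulLeft u₀).comp (algebraMap (ZMod p) k).toAddMonoidHom)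

theorem ps_apply (ψ : AddChar k ℂ) (u₀ : k) (w : ZMod p) :
    ps (p := p) ψ u₀ w = ψ (u₀ * algebraMap (ZMod p) k w) := rfl

theorem norm_ps (ψ : AddChar k ℂ) (u₀ : k) (w : ZMod p) : ‖ps (p := p) ψ u₀ w‖ = 1 :=
  AddChar.norm_apply _ _

theorem ps_ne (ψ : AddChar k ℂ) (u₀ : k) (h : ψ u₀ ≠ 1) : ps (p := p) ψ u₀ ≠ 1 := by
  intro h1
  apply h
  have h2 := ps_apply (p := p) ψ u₀ 1
  rw [h1, AddChar.one_apply, map_one, mul_one] at h2
  exact h2.symm

theorem p_le_card : p ≤ Fintype.card k := by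
  have h := Fintype.card_le_of_injective (algebraMap (ZMod p) k) (algebraMap (ZMod p) k).injective
  rwa [ZMod.card] at h

open Classical in
/-- the part of the expansion of the weight, for fixed `z` -/
noncomputable def Wz (ψ₁ : AddChar (ZMod p) ℂ) (V : B → Prop)
    (h : Finset B → (B → ZMod p) → ℂ) (z : B → ZMod p) (b : Finset B) : ℂ :=
  (p : ℂ) ^ (b.filter V).card * h (b.filter V) z *
    ∏ q' ∈ b with V q', ∏ q ∈ b with ¬ V q, ψ₁ (z q' * S.kap q' q)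

open Classical in
noncomputable def AA (ψ₁ : AddChar (ZMod p) ℂ) (V : B → Prop) (z : B → ZMod p) (r : Finset B)
    (q : B) : ℂ := ∏ q' ∈ r with V q', ψ₁ (z q' * S.kap q' q)

open Classical in
noncomputable def BB (ψ₁ : AddChar (ZMod p) ℂ) (V : B → Prop)
    (h : Finset B → (B → ZMod p) → ℂ) (z : B → ZMod p) (D r : Finset B) : ℂ :=
  (p : ℂ) ^ (D.filter V).card * h ((D ∪ r).filter V) z *
    ∏ q' ∈ D ∪ r with V q', ∏ q ∈ D ∪ r with ¬ V q, ψ₁ (z q' * S.kap q' q)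

open Classical in
theorem Wz_insert (ψ₁ : AddChar (ZMod p) ℂ) (V : B → Prop)
    (h : Finset B → (B → ZMod p) → ℂ) (z : B → ZMod p) {D r : Finset B} (hD : Disjoint D r)
    {q : B} (hq : q ∉ D ∪ r) (hV : ¬ V q) :
    Wz S ψ₁ V h z (insert q (D ∪ r)) =
      (p : ℂ) ^ (r.filter V).card * (AA S ψ₁ V z r q * (BB S ψ₁ V h z D r *
        AA S ψ₁ V z D q)) := by
  unfold Wz AA BB
  have e1 : (insert q (D ∪ r)).filter V = (D ∪ r).filter V := by
    rw [filter_insert, if_neg hV]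
  have e2 : (insert q (D ∪ r)).filter (fun q ↦ ¬ V q) =
      insert q ((D ∪ r).filter fun q ↦ ¬ V q) := by
    rw [filter_insert, if_pos hV]
  have e3 : ((D ∪ r).filter V).card = (D.filter V).card + (r.filter V).card := by
    rw [filter_union, card_union_of_disjoint (disjoint_filter_filter hD)]
  have e4 : ∏ q' ∈ D ∪ r with V q', ψ₁ (z q' * S.kap q' q) =
      (∏ q' ∈ D with V q', ψ₁ (z q' * S.kap q' q)) *
        ∏ q' ∈ r with V q', ψ₁ (z q' * S.kap q' q) := by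
    rw [filter_union, prod_union (disjoint_filter_filter hD)]
  rw [e1, e2, e3]
  have e5 : ∀ q' : B, ∏ x ∈ insert q ((D ∪ r).filter fun q ↦ ¬ V q), ψ₁ (z q' * S.kap q' x) =
      ψ₁ (z q' * S.kap q' q) * ∏ x ∈ D ∪ r with ¬ V x, ψ₁ (z q' * S.kap q' x) := by
    intro q'
    rw [prod_insert]
    intro h1
    exact hq (mem_filter.1 h1).1
  simp only [e5]
  rw [prod_mul_distrib, e4, pow_add]
  ring

theorem norm_AA (ψ₁ : AddChar (ZMod p) ℂ) (V : B → Prop) (z : B → ZMod p) (r : Finset B)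
    (q : B) : ‖AA S ψ₁ V z r q‖ = 1 := by
  unfold AA
  rw [norm_prod]
  exact prod_eq_one fun q' _ ↦ AddChar.norm_apply _ _

theorem norm_BB (ψ₁ : AddChar (ZMod p) ℂ) (V : B → Prop)
    (h : Finset B → (B → ZMod p) → ℂ) (hh : ∀ D z, ‖h D z‖ ≤ 1) (z : B → ZMod p)
    (D r : Finset B) : ‖BB S ψ₁ V h z D r‖ ≤ (Fintype.card k : ℝ) ^ D.card := by
  classical
  unfold BB
  rw [norm_mul, norm_mul, norm_prod]
  have h1 : ∏ q' ∈ (D ∪ r).filter V, ‖∏ q ∈ (D ∪ r).filter (fun q ↦ ¬ V q),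
      ψ₁ (z q' * S.kap q' q)‖ = 1 := by
    refine prod_eq_one fun q' _ ↦ ?_
    rw [norm_prod]
    exact prod_eq_one fun q _ ↦ AddChar.norm_apply _ _
  rw [h1, mul_one, norm_pow, Complex.norm_natCast]
  have hp : (1 : ℝ) ≤ p := by exact_mod_cast (Fact.out : p.Prime).one_lt.le
  have hk : (p : ℝ) ≤ Fintype.card k := by exact_mod_cast p_le_card (p := p) (k := k)
  calc (p : ℝ) ^ (D.filter V).card * ‖h ((D ∪ r).filter V) z‖
      ≤ (p : ℝ) ^ (D.filter V).card * 1 :=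
        mul_le_mul_of_nonneg_left (hh _ _) (by positivity)
    _ = (p : ℝ) ^ (D.filter V).card := mul_one _
    _ ≤ (p : ℝ) ^ D.card := pow_le_pow_right₀ hp (card_filter_le _ _)
    _ ≤ (Fintype.card k : ℝ) ^ D.card := pow_le_pow_left₀ (by linarith) hk _

open Classical in
/-- the new label function -/
noncomputable def cV (V : B → Prop) (u₀ : k) (z : B → ZMod p) (y c : B → k) : B → k :=
  fun q' ↦ c q' + if V q' then u₀ * algebraMap (ZMod p) k (z q') / y q' else 0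

open Classical in
theorem chr_mul (ψ : AddChar k ℂ) (u₀ : k) (V : B → Prop) (z : B → ZMod p) (D : Finset B)
    (y c : B → k) (t : k) (q : B) (hy : ∀ q' ∈ D, y q' ≠ 0) :
    S.chr ψ D y c t q * AA S (ps ψ u₀) V z D q = S.chr ψ D y (cV V u₀ z y c) t q := by
  unfold AA Sys.chr
  rw [prod_filter, ← prod_mul_distrib]
  refine prod_congr rfl fun q' hq' ↦ ?_
  unfold cV
  by_cases hV : V q'
  · rw [if_pos hV, if_pos hV, ps_apply, ← AddChar.map_add_eq_mul]
    congr 1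
    rw [map_mul]
    have := hy q' hq'
    field_simp
    ring
  · rw [if_neg hV, if_neg hV, mul_one, add_zero]

open Classical in
/-- The term of the bilinear form. -/
noncomputable def zw (ψ : AddChar k ℂ) (u₀ : k) (V : B → Prop)
    (h : Finset B → (B → ZMod p) → ℂ) (z : B → ZMod p) (j : ℕ) (X : ℝ) (r : Finset B)
    (χ : AddChar Λ ℂ) (x : U) (t : k) (c y : B → k) (q : B) (D : Finset B) : ℂ :=
  (AA S (ps ψ u₀) V z r q * χ (S.lam q t)) *
    ((Fintype.card k : ℂ) ^ (rsj S j D).card * Phi S ψ χ j x c y D r *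
      BB S (ps ψ u₀) V h z D r) *
    S.chr ψ D y (cV V u₀ z y (ct S j c)) t q * (Real.exp (-(S.N q * S.nm D / (X / S.nm r))) : ℂ)

open Classical in
theorem part_eq' (ψ : AddChar k ℂ) (u₀ : k) (V : B → Prop)
    (h : Finset B → (B → ZMod p) → ℂ) (z : B → ZMod p) (χ : AddChar Λ ℂ) {E i j : ℕ}
    {P r D : Finset B} (hc : Dc S E i j P r D) {q : B} (hq : q ∉ D ∪ r) (hj : S.bl q = j)
    (hV : ¬ V q) (X : ℝ) :
    Wz S (ps ψ u₀) V h z (insert q (D ∪ r)) * S.part ψ E P (insert q (D ∪ r)) q D χ *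
        (Real.exp (-(S.nm (insert q (D ∪ r)) / X)) : ℂ) =
      ((p : ℂ) ^ (r.filter V).card * ((Fintype.card k : ℂ) ^ (rsj S j r).card /
        (Fintype.card Λ * ((lab k P).card : ℂ) ^ 2))) *
      ∑ x : U, ∑ t : k with t ≠ 0, ∑ c ∈ lab k P,
        ∑ y ∈ lab k P with (∀ q' ∈ rgj S E j r, y q' = 0),
          if ∀ q' ∈ D, y q' ≠ 0 then zw S ψ u₀ V h z j X r χ x t c y q D else 0 := by
  rw [mul_assoc, part_eq S ψ χ hc hq hj X, Wz_insert S (ps ψ u₀) V h z hc.dis hq hV]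
  set w : ℂ := (Fintype.card k : ℂ) ^ (rsj S j r).card /
        (Fintype.card Λ * ((lab k P).card : ℂ) ^ 2)
  have e1 : ∀ s : ℂ, (p : ℂ) ^ (r.filter V).card * (AA S (ps ψ u₀) V z r q *
      (BB S (ps ψ u₀) V h z D r * AA S (ps ψ u₀) V z D q)) * (w * s) =
      ((p : ℂ) ^ (r.filter V).card * w) * ((AA S (ps ψ u₀) V z r q *
      (BB S (ps ψ u₀) V h z D r * AA S (ps ψ u₀) V z D q)) * s) := by
    intro s
    ring
  rw [e1]
  congr 1
  simp only [mul_sum]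
  refine sum_congr rfl fun x _ ↦ sum_congr rfl fun t _ ↦ sum_congr rfl fun c _ ↦
    sum_congr rfl fun y _ ↦ ?_
  by_cases h2 : ∀ q' ∈ D, y q' ≠ 0
  · rw [if_pos h2, if_pos h2]
    unfold zt zw
    rw [← chr_mul S ψ u₀ V z D y (ct S j c) t q h2]
    ring
  · rw [if_neg h2, if_neg h2, mul_zero]

open Classical in
theorem bil' [Finite C] (ψ : AddChar k ℂ) (Lk : k → k → Prop)
    (Cs : k → AddSubgroup k) (M : ℕ) (κ : ℝ) {g : ℝ → ℝ} {K : ℕ}
    (hyp : HypG S ψ Lk Cs M κ g K) (u₀ : k) (V I : B → Prop)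
    (h : Finset B → (B → ZMod p) → ℂ) (hh : ∀ D z, ‖h D z‖ ≤ 1) (z : B → ZMod p)
    (E : ℕ) (i : ℕ) {j : ℕ} (hj : 1 ≤ j) {X : ℝ} (hX : 0 < X)
    (P r : Finset B) (χ : AddChar Λ ℂ) (x : U) {t : k} (ht : t ≠ 0) (c y : B → k) :
    ‖∑ q ∈ S.blk j with S.spl q, ∑ D ∈ S.mods i,
      if ((q ∈ P ∧ I q) ∧ Dc S E i j P r D ∧ S.cls q + ∑ q' ∈ D ∪ r, S.cls q' = S.cl₀) ∧
          ∀ q' ∈ D, y q' ≠ 0 then zw S ψ u₀ V h z j X r χ x t c y q D else 0‖ ≤
      Nat.card C * (K * 2 ^ (i + j) * (i + 1) ^ K * (2 : ℝ) ^ (-(min i j : ℝ) / K) *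
        Real.exp (-((2 : ℝ) ^ (i + j) / (2 * (X / S.nm r))))) := by
  let _ : Fintype C := Fintype.ofFinite C
  let α : C → B → ℂ := fun γ q ↦ if (q ∈ P ∧ I q) ∧ S.cls q = γ then
    AA S (ps ψ u₀) V z r q * χ (S.lam q t) else 0
  let β : C → Finset B → ℂ := fun γ D ↦
    if (Dc S E i j P r D ∧ γ + ∑ q' ∈ D ∪ r, S.cls q' = S.cl₀) ∧ ∀ q' ∈ D, y q' ≠ 0 then
      (Fintype.card k : ℂ) ^ (rsj S j D).card * Phi S ψ χ j x c y D r *
        BB S (ps ψ u₀) V h z D r else 0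
  have h1 : ∀ (q : B) (D : Finset B),
      (if ((q ∈ P ∧ I q) ∧ Dc S E i j P r D ∧ S.cls q + ∑ q' ∈ D ∪ r, S.cls q' = S.cl₀) ∧
          ∀ q' ∈ D, y q' ≠ 0 then zw S ψ u₀ V h z j X r χ x t c y q D else 0) =
      ∑ γ : C, α γ q * β γ D * S.chr ψ D y (cV V u₀ z y (ct S j c)) t q *
        (Real.exp (-(S.N q * S.nm D / (X / S.nm r))) : ℂ) := by
    intro q D
    rw [sum_eq_single (S.cls q)]
    · simp only [α, β]
      by_cases h2 : q ∈ P ∧ I q
      · by_cases h3 : (Dc S E i j P r D ∧ S.cls q + ∑ q' ∈ D ∪ r, S.cls q' = S.cl₀) ∧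
          ∀ q' ∈ D, y q' ≠ 0
        · rw [if_pos ⟨⟨h2, h3.1⟩, h3.2⟩, if_pos ⟨h2, trivial⟩, if_pos h3]
          unfold zw
          rfl
        · rw [if_neg (fun h4 ↦ h3 ⟨h4.1.2, h4.2⟩), if_neg h3]
          ring
      · rw [if_neg (fun h4 ↦ h2 h4.1.1), if_neg (fun h4 ↦ h2 h4.1)]
        ring
    · intro γ _ hγ
      simp only [α]
      rw [if_neg (fun h4 ↦ hγ h4.2.symm)]
      ring
    · intro h
      exact absurd (mem_univ _) h
  simp only [h1]
  have h2 : ∑ q ∈ S.blk j with S.spl q, ∑ D ∈ S.mods i, ∑ γ : C,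
      α γ q * β γ D * S.chr ψ D y (cV V u₀ z y (ct S j c)) t q *
        (Real.exp (-(S.N q * S.nm D / (X / S.nm r))) : ℂ) =
      ∑ γ : C, ∑ q ∈ S.blk j with S.spl q, ∑ D ∈ S.mods i,
        α γ q * β γ D * S.chr ψ D y (cV V u₀ z y (ct S j c)) t q *
        (Real.exp (-(S.N q * S.nm D / (X / S.nm r))) : ℂ) := by
    rw [sum_comm (s := (univ : Finset C))]
    exact sum_congr rfl fun q _ ↦ sum_comm
  rw [h2]
  rw [Nat.card_eq_fintype_card]
  have hr : (0 : ℝ) < S.nm r := by exact_mod_cast one_le_nm S r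
  have hk : (1 : ℝ) ≤ Fintype.card k := by
    have : 0 < Fintype.card k := Fintype.card_pos
    exact_mod_cast this
  refine (norm_sum_le_of_le _ fun γ _ ↦ hyp.blG i j t y (cV V u₀ z y (ct S j c)) (α γ) (β γ)
    (X / S.nm r) hj ht (div_pos hX hr) ?_ ?_ ?_).trans ?_
  · intro q
    simp only [α]
    split_ifs
    · rw [norm_mul, norm_AA, AddChar.norm_apply, one_mul]
    · simp
  · intro D
    simp only [β]
    split_ifs
    · rw [norm_mul, norm_mul, norm_Phi, mul_one, norm_pow, Complex.norm_natCast, two_mul,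
        pow_add]
      refine mul_le_mul (pow_le_pow_right₀ hk ?_) (norm_BB S _ V h hh z D r) (norm_nonneg _)
        (by positivity)
      unfold rsj
      exact card_filter_le _ _
    · rw [norm_zero]
      positivity
  · intro D hD
    simp only [β] at hD
    by_cases h3 : (Dc S E i j P r D ∧ γ + ∑ q' ∈ D ∪ r, S.cls q' = S.cl₀) ∧
          ∀ q' ∈ D, y q' ≠ 0
    · refine ⟨h3.1.1.inj.mono ?_, ?_⟩
      · exact_mod_cast subset_union_left
      · intro q hq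
        have h4 := h3.1.1.spl q hq
        exact ⟨h4.1, h3.1.1.blk q (mem_union_left _ hq) h4.1, h3.2 q hq⟩
    · rw [if_neg h3] at hD
      exact absurd rfl hD
  · rw [sum_const, card_univ, nsmul_eq_mul]

open Classical in
/-- The inner term of the sum. -/
noncomputable def HW (ψ : AddChar k ℂ) (W : Finset B → ℂ) (I : B → Prop) (E i j : ℕ) (X : ℝ)
    (P b : Finset B) (q : B) (D : Finset B) : ℂ :=
  if S.Fam b ∧ (S.Wt E b q ∧ S.bl q = j ∧ I q) ∧ (D ⊆ S.rg E b q ∧ Nat.log 2 (S.nm D) = i) then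
    ∑ χ : AddChar Λ ℂ, W b * S.part ψ E P b q D χ * (Real.exp (-(S.nm b / X)) : ℂ) else 0

open Classical in
theorem total_eq' (hdec : C_DEC) (ψ : AddChar k ℂ) (W : Finset B → ℂ) (I : B → Prop)
    (E i j : ℕ) (X : ℝ) (P : Finset B) :
    ∑ b ∈ P.powerset with S.Fam b, ∑ q ∈ b with (S.Wt E b q ∧ S.bl q = j ∧ I q),
      ∑ D ∈ (S.rg E b q).powerset with Nat.log 2 (S.nm D) = i, ∑ χ : AddChar Λ ℂ,
        W b * S.part ψ E P b q D χ * (Real.exp (-(S.nm b / X)) : ℂ) =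
    ∑ r ∈ P.powerset, ∑ D ∈ (P \ r).powerset, ∑ q ∈ P \ (D ∪ r),
      HW S ψ W I E i j X P (insert q (D ∪ r)) q D := by
  obtain ⟨h1, h2, -⟩ := hdec B P
  have e1 : ∑ b ∈ P.powerset with S.Fam b, ∑ q ∈ b with (S.Wt E b q ∧ S.bl q = j ∧ I q),
      ∑ D ∈ (S.rg E b q).powerset with Nat.log 2 (S.nm D) = i, ∑ χ : AddChar Λ ℂ,
        W b * S.part ψ E P b q D χ * (Real.exp (-(S.nm b / X)) : ℂ) =
      ∑ b ∈ P.powerset, ∑ q ∈ b, ∑ D ∈ (b.erase q).powerset,
        HW S ψ W I E i j X P (insert q (b.erase q)) q D := by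
    rw [sum_filter]
    refine sum_congr rfl fun b _ ↦ ?_
    by_cases hF : S.Fam b
    · rw [if_pos hF, sum_filter]
      refine sum_congr rfl fun q hq ↦ ?_
      rw [insert_erase hq]
      by_cases hW : S.Wt E b q ∧ S.bl q = j ∧ I q
      · rw [if_pos hW]
        have hs : {D ∈ (S.rg E b q).powerset | Nat.log 2 (S.nm D) = i} =
            {D ∈ (b.erase q).powerset | D ⊆ S.rg E b q ∧ Nat.log 2 (S.nm D) = i} := by
          ext D
          simp only [mem_filter, mem_powerset]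
          constructor
          · rintro ⟨h3, h4⟩
            exact ⟨h3.trans (filter_subset _ _), h3, h4⟩
          · rintro ⟨_, h3, h4⟩
            exact ⟨h3, h4⟩
        rw [hs, sum_filter]
        refine sum_congr rfl fun D _ ↦ ?_
        unfold HW
        by_cases h3 : D ⊆ S.rg E b q ∧ Nat.log 2 (S.nm D) = i
        · rw [if_pos h3, if_pos ⟨hF, hW, h3⟩]
        · rw [if_neg h3, if_neg (fun h4 ↦ h3 h4.2.2)]
      · rw [if_neg hW]
        refine (sum_eq_zero fun D _ ↦ ?_).symm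
        unfold HW
        rw [if_neg (fun h4 ↦ hW h4.2.1)]
    · rw [if_neg hF]
      refine (sum_eq_zero fun q hq ↦ sum_eq_zero fun D _ ↦ ?_).symm
      unfold HW
      rw [insert_erase hq, if_neg (fun h4 ↦ hF h4.1)]
  rw [e1]
  have e2 := h1 ℂ (fun q s ↦ ∑ D ∈ s.powerset, HW S ψ W I E i j X P (insert q s) q D)
  rw [e2]
  have e3 : ∀ s ∈ P.powerset, ∑ q ∈ P \ s, ∑ D ∈ s.powerset,
      HW S ψ W I E i j X P (insert q s) q D =
      ∑ D ∈ s.powerset, ∑ q ∈ P \ (D ∪ (s \ D)),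
        HW S ψ W I E i j X P (insert q (D ∪ (s \ D))) q D := by
    intro s _
    rw [sum_comm]
    refine sum_congr rfl fun D hD ↦ ?_
    rw [union_sdiff_of_subset (mem_powerset.1 hD)]
  rw [sum_congr rfl e3]
  exact h2 ℂ (fun D r ↦ ∑ q ∈ P \ (D ∪ r), HW S ψ W I E i j X P (insert q (D ∪ r)) q D)

open Classical in
theorem Wr_eq' (ψ : AddChar k ℂ) (u₀ : k) (V I : B → Prop) (hIV : ∀ q, I q → ¬ V q)
    (h : Finset B → (B → ZMod p) → ℂ) (z : B → ZMod p) (E i j : ℕ) (X : ℝ) (P r : Finset B) :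
    ∑ D ∈ (P \ r).powerset, ∑ q ∈ P \ (D ∪ r),
      HW S ψ (Wz S (ps ψ u₀) V h z) I E i j X P (insert q (D ∪ r)) q D =
      ((p : ℂ) ^ (r.filter V).card * ((Fintype.card k : ℂ) ^ (rsj S j r).card /
        (Fintype.card Λ * ((lab k P).card : ℂ) ^ 2))) *
      ∑ χ : AddChar Λ ℂ, ∑ x : U, ∑ t : k with t ≠ 0, ∑ c ∈ lab k P,
        ∑ y ∈ lab k P with (∀ q' ∈ rgj S E j r, y q' = 0),
          ∑ q ∈ S.blk j with S.spl q, ∑ D ∈ S.mods i,
            if ((q ∈ P ∧ I q) ∧ Dc S E i j P r D ∧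
              S.cls q + ∑ q' ∈ D ∪ r, S.cls q' = S.cl₀) ∧
              ∀ q' ∈ D, y q' ≠ 0 then zw S ψ u₀ V h z j X r χ x t c y q D else 0 := by
  set w : ℂ := (p : ℂ) ^ (r.filter V).card * ((Fintype.card k : ℂ) ^ (rsj S j r).card /
        (Fintype.card Λ * ((lab k P).card : ℂ) ^ 2)) with hw
  have e1 : ∀ q D, (if ((q ∈ P ∧ I q) ∧ Dc S E i j P r D ∧
        S.cls q + ∑ q' ∈ D ∪ r, S.cls q' = S.cl₀) then
      w * ∑ χ : AddChar Λ ℂ, ∑ x : U, ∑ t : k with t ≠ 0, ∑ c ∈ lab k P,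
        ∑ y ∈ lab k P with (∀ q' ∈ rgj S E j r, y q' = 0),
            if ∀ q' ∈ D, y q' ≠ 0 then zw S ψ u₀ V h z j X r χ x t c y q D else 0 else 0) =
      w * ∑ χ : AddChar Λ ℂ, ∑ x : U, ∑ t : k with t ≠ 0, ∑ c ∈ lab k P,
        ∑ y ∈ lab k P with (∀ q' ∈ rgj S E j r, y q' = 0),
            if ((q ∈ P ∧ I q) ∧ Dc S E i j P r D ∧
              S.cls q + ∑ q' ∈ D ∪ r, S.cls q' = S.cl₀) ∧
              ∀ q' ∈ D, y q' ≠ 0 then zw S ψ u₀ V h z j X r χ x t c y q D else 0 := by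
    intro q D
    by_cases h : ((q ∈ P ∧ I q) ∧ Dc S E i j P r D ∧
      S.cls q + ∑ q' ∈ D ∪ r, S.cls q' = S.cl₀)
    · rw [if_pos h]
      simp only [h, true_and]
    · rw [if_neg h]
      simp only [h, false_and, if_false, sum_const_zero, mul_zero]
  rw [comm6]
  have e2 : ∀ q ∈ {q ∈ S.blk j | S.spl q}, ∑ χ : AddChar Λ ℂ, ∑ x : U,
      ∑ t : k with t ≠ 0, ∑ c ∈ lab k P,
        ∑ y ∈ lab k P with (∀ q' ∈ rgj S E j r, y q' = 0), ∑ D ∈ S.mods i,
            (if ((q ∈ P ∧ I q) ∧ Dc S E i j P r D ∧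
              S.cls q + ∑ q' ∈ D ∪ r, S.cls q' = S.cl₀) ∧
              ∀ q' ∈ D, y q' ≠ 0 then zw S ψ u₀ V h z j X r χ x t c y q D else 0) =
      ∑ D ∈ S.mods i, ∑ χ : AddChar Λ ℂ, ∑ x : U,
      ∑ t : k with t ≠ 0, ∑ c ∈ lab k P,
        ∑ y ∈ lab k P with (∀ q' ∈ rgj S E j r, y q' = 0),
            if ((q ∈ P ∧ I q) ∧ Dc S E i j P r D ∧
              S.cls q + ∑ q' ∈ D ∪ r, S.cls q' = S.cl₀) ∧
              ∀ q' ∈ D, y q' ≠ 0 then zw S ψ u₀ V h z j X r χ x t c y q D else 0 := by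
    intro q _
    rw [comm6]
  rw [sum_congr rfl e2, sum_comm]
  simp only [mul_sum (s := S.mods i), mul_sum (s := {q ∈ S.blk j | S.spl q}), ← e1]
  refine sum_congr_of_eq_on_inter ?_ ?_ ?_
  · intro D hD hDi
    refine sum_eq_zero fun q _ ↦ ?_
    unfold HW
    rw [if_neg]
    rintro ⟨-, -, -, h⟩
    exact hDi ((mem_mods S).2 h)
  · intro D _ hD
    refine sum_eq_zero fun q _ ↦ ?_
    rw [if_neg]
    rintro ⟨-, h, -⟩
    refine hD ?_
    rw [mem_powerset]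
    exact subset_sdiff.2 ⟨h.sub, h.dis⟩
  · intro D hD _
    rw [mem_powerset, subset_sdiff] at hD
    refine sum_congr_of_eq_on_inter ?_ ?_ ?_
    · intro q hq hqn
      rw [mem_sdiff] at hq
      unfold HW
      rw [if_neg]
      rintro ⟨h3, ⟨h4, h5, -⟩, h6⟩
      have h2 := (cond_iff S hD.1 hD.2 hq.2).1 ⟨h3, ⟨h4, h5⟩, h6⟩
      refine hqn ?_
      rw [mem_filter, mem_blk]
      exact h2.1
    · intro q hq hqn
      rw [mem_filter, mem_blk] at hq
      rw [if_neg]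
      rintro ⟨⟨h1, -⟩, h2, -⟩
      refine hqn ?_
      rw [mem_sdiff]
      exact ⟨h1, fun h3 ↦ h2.blk q h3 hq.2 hq.1⟩
    · intro q hq hqb
      rw [mem_sdiff] at hq
      rw [mem_filter, mem_blk] at hqb
      unfold HW
      by_cases h1 : I q ∧ Dc S E i j P r D ∧ S.cls q + ∑ q' ∈ D ∪ r, S.cls q' = S.cl₀
      · have h2 := (cond_iff S hD.1 hD.2 hq.2).2 ⟨hqb, h1.2⟩
        rw [if_pos ⟨h2.1, ⟨h2.2.1.1, h2.2.1.2, h1.1⟩, h2.2.2⟩, if_pos ⟨⟨hq.1, h1.1⟩, h1.2⟩,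
          mul_sum]
        refine sum_congr rfl fun χ _ ↦ ?_
        rw [hw]
        exact part_eq' S ψ u₀ V h z χ h1.2.1 hq.2 hqb.1 (hIV q h1.1) X
      · rw [if_neg, if_neg (fun h2 ↦ h1 ⟨h2.1.2, h2.2⟩)]
        rintro ⟨h3, ⟨h4, h5, h7⟩, h6⟩
        exact h1 ⟨h7, ((cond_iff S hD.1 hD.2 hq.2).1 ⟨h3, ⟨h4, h5⟩, h6⟩).2⟩

open Classical in
theorem Wr_le' (hlab : C_LAB) [Finite C] (ψ : AddChar k ℂ) (Lk : k → k → Prop)
    (Cs : k → AddSubgroup k) (M : ℕ) (κ : ℝ)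
    {g : ℝ → ℝ} {K : ℕ} (hyp : HypG S ψ Lk Cs M κ g K) (u₀ : k) (V I : B → Prop)
    (hIV : ∀ q, I q → ¬ V q)
    (h : Finset B → (B → ZMod p) → ℂ) (hh : ∀ D z, ‖h D z‖ ≤ 1) (z : B → ZMod p)
    (E i : ℕ) {j : ℕ} (hj : 1 ≤ j)
    (hjE : j ≤ th E j) {X : ℝ} (hX : 0 < X) {P r : Finset B} (hr : r ⊆ P) :
    ‖∑ D ∈ (P \ r).powerset, ∑ q ∈ P \ (D ∪ r),
      HW S ψ (Wz S (ps ψ u₀) V h z) I E i j X P (insert q (D ∪ r)) q D‖ ≤
      (p : ℝ) ^ r.card * (Fintype.card U * Fintype.card k *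
        (Nat.card C * (K * 2 ^ (i + j) * (i + 1) ^ K * (2 : ℝ) ^ (-(min i j : ℝ) / K) *
        Real.exp (-((2 : ℝ) ^ (i + j) / (2 * (X / S.nm r))))))) := by
  rw [Wr_eq' S ψ u₀ V I hIV]
  set Bd : ℝ := (Nat.card C * (K * 2 ^ (i + j) * (i + 1) ^ K *
    (2 : ℝ) ^ (-(min i j : ℝ) / K) *
        Real.exp (-((2 : ℝ) ^ (i + j) / (2 * (X / S.nm r)))))) with hBd
  have hBd0 : 0 ≤ Bd := by positivity
  have h1 : ‖∑ χ : AddChar Λ ℂ, ∑ x : U, ∑ t : k with t ≠ 0, ∑ c ∈ lab k P,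
        ∑ y ∈ lab k P with (∀ q' ∈ rgj S E j r, y q' = 0),
          ∑ q ∈ S.blk j with S.spl q, ∑ D ∈ S.mods i,
            if ((q ∈ P ∧ I q) ∧ Dc S E i j P r D ∧
              S.cls q + ∑ q' ∈ D ∪ r, S.cls q' = S.cl₀) ∧
              ∀ q' ∈ D, y q' ≠ 0 then zw S ψ u₀ V h z j X r χ x t c y q D else 0‖ ≤
      ∑ χ : AddChar Λ ℂ, ∑ x : U, ∑ t : k with t ≠ 0, ∑ c ∈ lab k P,
        ∑ y ∈ lab k P with (∀ q' ∈ rgj S E j r, y q' = 0), Bd :=
    norm_sum_le_of_le _ fun χ _ ↦ norm_sum_le_of_le _ fun x _ ↦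
      norm_sum_le_of_le _ fun t ht ↦ norm_sum_le_of_le _ fun c _ ↦
        norm_sum_le_of_le _ fun y _ ↦
          bil' S ψ Lk Cs M κ hyp u₀ V I h hh z E i hj hX P r χ x (mem_filter.1 ht).2 c y
  simp only [sum_const, nsmul_eq_mul, card_univ, AddChar.card_eq] at h1
  have h2 : Fintype.card k ^ (rgj S E j r).card *
      ((lab k P).filter fun y ↦ ∀ q' ∈ rgj S E j r, y q' = 0).card = (lab k P).card := by
    have := (hlab B k P).2.2.2.1 (fun _ ↦ (1 : ℂ)) (rgj S E j r)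
      ((filter_subset _ _).trans hr) (fun _ _ _ _ ↦ rfl)
    simp only [sum_const, nsmul_eq_mul, mul_one] at this
    exact_mod_cast this
  set ny : ℕ := ((lab k P).filter fun y ↦ ∀ q' ∈ rgj S E j r, y q' = 0).card
  set nt : ℕ := ((univ : Finset k).filter fun t ↦ t ≠ 0).card with hnt
  have hnt1 : (nt : ℝ) ≤ Fintype.card k := by
    have : nt ≤ Fintype.card k := by
      rw [hnt, ← card_univ]
      exact card_filter_le _ _
    exact_mod_cast this
  have h3 : (rsj S j r).card ≤ (rgj S E j r).card := by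
    refine card_le_card ?_
    unfold rsj rgj
    refine monotone_filter_right _ ?_
    rintro q _ ⟨hs, hb⟩
    exact ⟨hs, hb.ne, hb.le.trans hjE⟩
  have hk : 1 ≤ Fintype.card k := Fintype.card_pos
  have h4 : Fintype.card k ^ (rsj S j r).card * ny ≤ (lab k P).card := by
    rw [← h2]
    exact Nat.mul_le_mul_right _ (Nat.pow_le_pow_right hk h3)
  have hlp : 0 < (lab k P).card := by
    rw [(hlab B k P).1]
    exact Nat.pow_pos hk
  have hL : 0 < Fintype.card Λ := Fintype.card_pos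
  have hp : (1 : ℝ) ≤ p := by exact_mod_cast (Fact.out : p.Prime).one_lt.le
  rw [norm_mul, norm_mul]
  have h5 : ‖((Fintype.card k : ℂ) ^ (rsj S j r).card /
      (Fintype.card Λ * ((lab k P).card : ℂ) ^ 2))‖ =
      (Fintype.card k : ℝ) ^ (rsj S j r).card /
      (Fintype.card Λ * ((lab k P).card : ℝ) ^ 2) := by
    rw [norm_div, norm_mul, norm_pow, norm_pow, Complex.norm_natCast, Complex.norm_natCast,
      Complex.norm_natCast]
  have h6 : ‖(p : ℂ) ^ (r.filter V).card‖ ≤ (p : ℝ) ^ r.card := by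
    rw [norm_pow, Complex.norm_natCast]
    exact pow_le_pow_right₀ hp (card_filter_le _ _)
  rw [h5, mul_assoc]
  refine mul_le_mul h6 ?_ (by positivity) (by positivity)
  set m : ℕ := (lab k P).card
  have h4' : (Fintype.card k : ℝ) ^ (rsj S j r).card * ny ≤ m := by exact_mod_cast h4
  have hm : (0 : ℝ) < m := by exact_mod_cast hlp
  have hL' : (0 : ℝ) < Fintype.card Λ := by exact_mod_cast hL
  calc (Fintype.card k : ℝ) ^ (rsj S j r).card / (Fintype.card Λ * (m : ℝ) ^ 2) * _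
      ≤ (Fintype.card k : ℝ) ^ (rsj S j r).card / (Fintype.card Λ * (m : ℝ) ^ 2) *
        (Fintype.card Λ * (Fintype.card U * (nt * (m * (ny * Bd))))) :=
        mul_le_mul_of_nonneg_left h1 (by positivity)
    _ = ((Fintype.card k : ℝ) ^ (rsj S j r).card * ny / m) *
        (Fintype.card U * nt * Bd) := by
        field_simp
    _ ≤ 1 * (Fintype.card U * Fintype.card k * Bd) := by
        refine mul_le_mul ((div_le_one hm).2 h4') ?_ (by positivity) zero_le_one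
        gcongr
    _ = _ := by rw [one_mul]

end Main

open Classical in
/-- **T_LRGG** (the large moduli, with a weight). -/
theorem t_lrgg' (hlab : C_LAB) (hdec : C_DEC) (hfou : T_FOU) :
    Pool.Agent.Helper38.TH.T_LRGG := by
  intro p _ B B₀ k U Λ C _ _ _ _ _ _ _ _ _ _ _ S ψ Lk Cs M κ g K hyp
  have hpk := p_le_card (p := p) (k := k)
  have hp1 : 1 ≤ p := (Fact.out : p.Prime).one_lt.le
  obtain ⟨u₀, hu₀⟩ : ∃ u₀ : k, ψ u₀ ≠ 1 := by
    by_contra hcon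
    push Not at hcon
    apply hyp.ψ_ne
    ext u
    rw [hcon u]
    rfl
  set n0 := p * K with hn0
  set C1 : ℕ := 2 * K ^ 3 * Fintype.card U * Fintype.card k * Nat.card C * 3 ^ n0 with hC1
  refine ⟨C1 + n0, ?_⟩
  intro V G I hG hIV E i j X P hj hjE hX
  have hX0 : 0 < X := lt_of_lt_of_le one_pos hX
  obtain ⟨h, hh, -, hGb⟩ := hfou p B B₀ k U Λ C S (ps ψ u₀) (ps_ne ψ u₀ hu₀) V G hG P
  set w : ℝ := (2 : ℝ) ^ (-(min i j : ℝ) / K) with hw0
  have hw : 0 ≤ w := by positivity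
  set Y : ℝ := 2 * X / 2 ^ (i + j) with hY
  have hY0 : 0 < Y := by positivity
  have hYX : Y ≤ X := by
    rw [hY, div_le_iff₀ (by positivity)]
    have : (2 : ℝ) ^ 1 ≤ 2 ^ (i + j) := pow_le_pow_right₀ (by norm_num) (by omega)
    nlinarith
  -- the sum for fixed z
  have hz : ∀ z : B → ZMod p,
      ‖∑ b ∈ P.powerset with S.Fam b, ∑ q ∈ b with (S.Wt E b q ∧ S.bl q = j ∧ I q),
        ∑ D ∈ (S.rg E b q).powerset with Nat.log 2 (S.nm D) = i, ∑ χ : AddChar Λ ℂ,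
          Wz S (ps ψ u₀) V h z b * S.part ψ E P b q D χ *
            (Real.exp (-(S.nm b / X)) : ℂ)‖ ≤
      C1 * ((lg X : ℝ) + 2) ^ n0 * (i + 1) ^ K * w * (X * g X) := by
    intro z
    rw [total_eq' S hdec]
    refine (norm_sum_le_of_le _ fun r hr ↦
      Wr_le' S hlab ψ Lk Cs M κ hyp u₀ V I hIV h hh z E i hj hjE hX0
        (mem_powerset.1 hr)).trans ?_
    have h1 := hyp.htG (fun _ ↦ p) (fun q ↦ ⟨by positivity, by
      have h2 : (p : ℝ) ≤ Fintype.card k := by exact_mod_cast hpk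
      have h3 : (0 : ℝ) ≤ Fintype.card k := Nat.cast_nonneg _
      nlinarith⟩) Y hY0 P
    simp only [prod_const] at h1
    have hK : (1 : ℝ) ≤ K := by exact_mod_cast hyp.one_le
    have hgY : 0 ≤ g Y := zero_le_one.trans (hyp.g_one Y)
    have hgX : 0 ≤ g X := zero_le_one.trans (hyp.g_one X)
    have hL0 : (0 : ℝ) < (lg X : ℝ) + 1 := by positivity
    have h2 : ∑ q ∈ S.upto Y, ((p : ℝ) - 1) / S.N q ≤ n0 * (1 + Real.log (lg X + 1)) := by
      have h3 := Pool.Agent.Helper30.PP2.upto_sum S ψ g K hyp.toHyp₀ X Y hYX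
      have h4 : ∑ q ∈ S.upto Y, ((p : ℝ) - 1) / S.N q =
          ((p : ℝ) - 1) * ∑ q ∈ S.upto Y, (1 : ℝ) / S.N q := by
        rw [mul_sum]
        exact sum_congr rfl fun q _ => by ring
      have h5 : (1 : ℝ) ≤ p := by exact_mod_cast hp1
      have h6 : 0 ≤ Real.log ((lg X : ℝ) + 1) := Real.log_nonneg (by
        have : (0 : ℝ) ≤ lg X := Nat.cast_nonneg _
        linarith)
      rw [h4, hn0]
      push_cast
      calc ((p : ℝ) - 1) * ∑ q ∈ S.upto Y, (1 : ℝ) / S.N q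
          ≤ ((p : ℝ) - 1) * (K * (1 + Real.log (lg X + 1))) :=
            mul_le_mul_of_nonneg_left h3 (by linarith)
        _ ≤ (p : ℝ) * (K * (1 + Real.log (lg X + 1))) :=
            mul_le_mul_of_nonneg_right (by linarith) (by positivity)
        _ = _ := by ring
    have h3 : Real.exp (∑ q ∈ S.upto Y, ((p : ℝ) - 1) / S.N q) ≤
        3 ^ n0 * ((lg X : ℝ) + 2) ^ n0 := by
      calc _ ≤ Real.exp (n0 * (1 + Real.log (lg X + 1))) := Real.exp_le_exp.2 h2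
        _ = (Real.exp 1 * (lg X + 1)) ^ n0 := by
          rw [Real.exp_nat_mul, Real.exp_add, Real.exp_log hL0]
        _ ≤ (3 * ((lg X : ℝ) + 2)) ^ n0 := by
          have h4 : Real.exp 1 ≤ 3 := by
            have := Real.exp_one_lt_d9
            linarith
          refine pow_le_pow_left₀ (by positivity) ?_ _
          refine mul_le_mul h4 (by linarith) hL0.le (by norm_num)
        _ = _ := by rw [mul_pow]
    have h4 : ∑ r ∈ P.powerset, (p : ℝ) ^ r.card * Real.exp (-(S.nm r / Y)) ≤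
        K * (Y * (K * g X)) * (3 ^ n0 * ((lg X : ℝ) + 2) ^ n0) := by
      refine h1.trans ?_
      refine mul_le_mul ?_ h3 (Real.exp_pos _).le (by positivity)
      refine mul_le_mul_of_nonneg_left ?_ (by positivity)
      have h5 : Y * min 1 Y * g Y ≤ Y * 1 * g Y := by
        gcongr
        exact min_le_left _ _
      refine h5.trans ?_
      rw [mul_one]
      exact mul_le_mul_of_nonneg_left (hyp.g_mono Y X hYX) hY0.le
    have h5 : ∀ r, Real.exp (-((2 : ℝ) ^ (i + j) / (2 * (X / S.nm r)))) =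
        Real.exp (-(S.nm r / Y)) := by
      intro r
      have hr : (0 : ℝ) < S.nm r := by exact_mod_cast one_le_nm S r
      congr 2
      rw [hY]
      field_simp
    simp only [h5]
    have h6 : ∑ r ∈ P.powerset, (p : ℝ) ^ r.card * (Fintype.card U * Fintype.card k *
        (Nat.card C * (K * 2 ^ (i + j) * (i + 1) ^ K * w * Real.exp (-(S.nm r / Y))))) =
        (Fintype.card U : ℝ) * Fintype.card k *
        (Nat.card C * (K * 2 ^ (i + j) * (i + 1) ^ K * w *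
          ∑ r ∈ P.powerset, (p : ℝ) ^ r.card * Real.exp (-(S.nm r / Y)))) := by
      simp only [mul_sum]
      exact sum_congr rfl fun r _ => by ring
    rw [h6]
    set T : ℝ := ∑ r ∈ P.powerset, (p : ℝ) ^ r.card * Real.exp (-(S.nm r / Y))
    calc (Fintype.card U : ℝ) * Fintype.card k *
          (Nat.card C * (K * 2 ^ (i + j) * (i + 1) ^ K * w * T))
        ≤ (Fintype.card U : ℝ) * Fintype.card k *
          (Nat.card C * (K * 2 ^ (i + j) * (i + 1) ^ K * w *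
            (K * (Y * (K * g X)) * (3 ^ n0 * ((lg X : ℝ) + 2) ^ n0)))) := by
          gcongr
      _ = _ := by
          rw [hY, hC1]
          push_cast
          field_simp
  -- insert the Fourier expansion
  have hpC : (p : ℂ) ≠ 0 := by exact_mod_cast (show p ≠ 0 by omega)
  have e1 : ∑ b ∈ P.powerset with S.Fam b, ∑ q ∈ b with (S.Wt E b q ∧ S.bl q = j ∧ I q),
      ∑ D ∈ (S.rg E b q).powerset with Nat.log 2 (S.nm D) = i, ∑ χ : AddChar Λ ℂ,
        (G b : ℂ) * S.part ψ E P b q D χ * (Real.exp (-(S.nm b / X)) : ℂ) =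
      (1 / (p : ℂ)) ^ P.card * ∑ z ∈ lab (ZMod p) P,
      ∑ b ∈ P.powerset with S.Fam b, ∑ q ∈ b with (S.Wt E b q ∧ S.bl q = j ∧ I q),
        ∑ D ∈ (S.rg E b q).powerset with Nat.log 2 (S.nm D) = i, ∑ χ : AddChar Λ ℂ,
          Wz S (ps ψ u₀) V h z b * S.part ψ E P b q D χ *
            (Real.exp (-(S.nm b / X)) : ℂ) := by
    have e2 : ∀ (F : Finset B → ℂ) (b : Finset B),
        ∑ q ∈ b with (S.Wt E b q ∧ S.bl q = j ∧ I q),
        ∑ D ∈ (S.rg E b q).powerset with Nat.log 2 (S.nm D) = i, ∑ χ : AddChar Λ ℂ,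
          F b * S.part ψ E P b q D χ * (Real.exp (-(S.nm b / X)) : ℂ) =
        F b * ∑ q ∈ b with (S.Wt E b q ∧ S.bl q = j ∧ I q),
        ∑ D ∈ (S.rg E b q).powerset with Nat.log 2 (S.nm D) = i, ∑ χ : AddChar Λ ℂ,
          S.part ψ E P b q D χ * (Real.exp (-(S.nm b / X)) : ℂ) := by
      intro F b
      simp only [mul_sum, mul_assoc]
    have e3 : ∑ b ∈ P.powerset with S.Fam b,
        ∑ q ∈ b with (S.Wt E b q ∧ S.bl q = j ∧ I q),
        ∑ D ∈ (S.rg E b q).powerset with Nat.log 2 (S.nm D) = i, ∑ χ : AddChar Λ ℂ,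
          (G b : ℂ) * S.part ψ E P b q D χ * (Real.exp (-(S.nm b / X)) : ℂ) =
        ∑ b ∈ P.powerset with S.Fam b, (G b : ℂ) *
        ∑ q ∈ b with (S.Wt E b q ∧ S.bl q = j ∧ I q),
        ∑ D ∈ (S.rg E b q).powerset with Nat.log 2 (S.nm D) = i, ∑ χ : AddChar Λ ℂ,
          S.part ψ E P b q D χ * (Real.exp (-(S.nm b / X)) : ℂ) :=
      sum_congr rfl fun b _ ↦ e2 (fun b ↦ (G b : ℂ)) b
    rw [e3]
    have e4 : ∀ z : B → ZMod p, ∑ b ∈ P.powerset with S.Fam b,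
        ∑ q ∈ b with (S.Wt E b q ∧ S.bl q = j ∧ I q),
        ∑ D ∈ (S.rg E b q).powerset with Nat.log 2 (S.nm D) = i, ∑ χ : AddChar Λ ℂ,
          Wz S (ps ψ u₀) V h z b * S.part ψ E P b q D χ *
            (Real.exp (-(S.nm b / X)) : ℂ) =
        ∑ b ∈ P.powerset with S.Fam b, Wz S (ps ψ u₀) V h z b *
        ∑ q ∈ b with (S.Wt E b q ∧ S.bl q = j ∧ I q),
        ∑ D ∈ (S.rg E b q).powerset with Nat.log 2 (S.nm D) = i, ∑ χ : AddChar Λ ℂ,
          S.part ψ E P b q D χ * (Real.exp (-(S.nm b / X)) : ℂ) :=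
      fun z ↦ sum_congr rfl fun b _ ↦ e2 (fun b ↦ Wz S (ps ψ u₀) V h z b) b
    simp only [e4]
    rw [sum_comm, mul_sum]
    refine sum_congr rfl fun b hb ↦ ?_
    rw [← sum_mul, ← mul_assoc]
    congr 1
    exact hGb b (mem_powerset.1 (mem_filter.1 hb).1)
  rw [e1, norm_mul, norm_pow, norm_div, norm_one, Complex.norm_natCast]
  have hcard : ((lab (ZMod p) P).card : ℝ) = (p : ℝ) ^ P.card := by
    rw [(hlab B (ZMod p) P).1, ZMod.card]
    push_cast
    rfl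
  have hg0 : 0 ≤ g X := zero_le_one.trans (hyp.g_one X)
  set Bd : ℝ := C1 * ((lg X : ℝ) + 2) ^ n0 * (i + 1) ^ K * w * (X * g X) with hBd
  have h7 := norm_sum_le_of_le (lab (ZMod p) P) (fun z _ ↦ hz z)
  rw [sum_const, nsmul_eq_mul, hcard] at h7
  have hp0 : (0 : ℝ) < p := by exact_mod_cast hp1
  calc _ ≤ (1 / (p : ℝ)) ^ P.card * ((p : ℝ) ^ P.card * Bd) :=
        mul_le_mul_of_nonneg_left h7 (by positivity)
    _ = Bd := by
        rw [← mul_assoc, ← mul_pow, one_div, inv_mul_cancel₀ hp0.ne', one_pow, one_mul]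
    _ ≤ _ := by
        rw [hBd]
        have h8 : (1 : ℝ) ≤ (lg X : ℝ) + 2 := by
          have : (0 : ℝ) ≤ lg X := Nat.cast_nonneg _
          linarith
        have h9 : ((lg X : ℝ) + 2) ^ n0 ≤ ((lg X : ℝ) + 2) ^ (C1 + n0) :=
          pow_le_pow_right₀ h8 (by omega)
        have h10 : (C1 : ℝ) ≤ ((C1 + n0 : ℕ) : ℝ) := by exact_mod_cast Nat.le_add_right _ _
        gcongr

/-- **T_LRGG** (the large moduli, with a weight), from **T_FOU**. -/
theorem t_lrgg (hfou : T_FOU) : Pool.Agent.Helper38.TH.T_LRGG :=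
  t_lrgg' Pool.Agent.Helper83.PP.c_lab Pool.Agent.Helper22.PP.c_dec hfou

end Pool.Agent.Helper32.TH
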