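import Pool.Agent.Helper32.TH.DUNRb
import Pool.Agent.Helper38.TH.GoalsD
import Pool.Agent.Helper38.FD.Twist

/-! D_UNR: a tower of characters is unramified outside `p`. -/

set_option autoImplicit false
set_option linter.unusedSectionVars false

namespace Pool.Agent.Helper32.TH

open NumberField Module IsDedekindDomain
open Pool.Agent.Helper38.FD (Chr CutsOut Restricts isGalois_of_cutsOut exists_faithful exists_lift)
open Pool.Agent.Helper38.TH (IsTower Unr)

theorem le_of_fix' {K Ω : Type} [Field K] [Field Ω] [Algebra K Ω] [IsGalois K Ω]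
    {H H' : IntermediateField K Ω}
    (h : ∀ g : Ω ≃ₐ[K] Ω, (∀ x ∈ H', g x = x) → ∀ x ∈ H, g x = x) : H ≤ H' := by
  intro x hx
  rw [← InfiniteGalois.fixedField_fixingSubgroup H', IntermediateField.mem_fixedField_iff]
  intro g hg
  exact h g ((IntermediateField.mem_fixingSubgroup_iff _ _).1 hg) x hx

theorem tower_pow {p : ℕ} [Fact p.Prime] {K : Type} [Field K]
    {η : ℕ → Chr K (AlgebraicClosure K) ℂ_[p]} (hη : IsTower η) (n : ℕ) (m : ℕ)
    (g : AlgebraicClosure K ≃ₐ[K] AlgebraicClosure K) :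
    η (n + m) g ^ p ^ m = η n g := by
  induction m with
  | zero => rw [pow_zero, pow_one, add_zero]
  | succ m ih =>
      have h1 : η (n + m + 1) g ^ p = η (n + m) g := by
        rw [← hη.pow (n + m)]
        rfl
      rw [← add_assoc, pow_succ', pow_mul, h1, ih]

theorem d_unr : Pool.Agent.Helper38.TH.D_UNR := by
  intro p hp K _ _ η hη n H hH v hpv V hV
  obtain ⟨H₀, f0, c0⟩ := hη.fin n
  have e0 : H = H₀ := le_antisymm (le_of_fix' fun g hg => (hH g).1 ((c0 g).2 hg))
    (le_of_fix' fun g hg => (c0 g).1 ((hH g).2 hg))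
  subst e0
  have fQ : Finite (𝓞 K ⧸ v.asIdeal) := finite_quot' v.asIdeal v.ne_bot
  have nQ : Nontrivial (𝓞 K ⧸ v.asIdeal) := Ideal.Quotient.nontrivial_iff.2 v.isPrime.ne_top
  have hq2 : 2 ≤ Nat.card (𝓞 K ⧸ v.asIdeal) := Finite.one_lt_card
  set q := Nat.card (𝓞 K ⧸ v.asIdeal) with hq
  obtain ⟨HN, fN, cN⟩ := hη.fin (n + q)
  have hle : H ≤ HN := by
    refine le_of_fix' fun g hg => ?_
    refine (hH g).1 ?_
    rw [← tower_pow hη n q, (cN g).2 hg, one_pow]
  let _ : Algebra H HN := (IntermediateField.inclusion hle).toRingHom.toAlgebra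
  have _ : IsScalarTower K H HN := IsScalarTower.of_algebraMap_eq (fun x => rfl)
  have _ : NumberField H := NumberField.of_module_finite K H
  have _ : NumberField HN := NumberField.of_module_finite K HN
  have hG : IsGalois K HN := isGalois_of_cutsOut cN
  obtain ⟨χ', hinj, hχ'⟩ := exists_faithful cN
  have hp0 : η 0 = 1 := hη.zero
  have hpN : ∀ g, η (n + q) g ^ p ^ (n + q) = 1 := by
    intro g
    have h1 := tower_pow hη 0 (n + q) g
    rw [zero_add, hp0] at h1
    exact h1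
  have hcomm : ∀ σ τ : HN ≃ₐ[K] HN, σ * τ = τ * σ := by
    intro σ τ
    apply hinj
    rw [map_mul, map_mul, mul_comm]
  have hn : ∀ σ : HN ≃ₐ[K] HN, σ ^ (p ^ (n + q)) = 1 := by
    intro σ
    apply hinj
    obtain ⟨g, hg⟩ := exists_lift σ
    rw [map_pow, map_one, ← hχ' g σ hg, hpN]
  have hnv : ((p ^ (n + q) : ℕ) : 𝓞 K) ∉ v.asIdeal := by
    intro h
    rw [Nat.cast_pow] at h
    exact hpv (v.isPrime.mem_of_pow_mem _ h)
  obtain ⟨σ, hσ1, x, hx⟩ := exists_moves_tame (K := K) (F := H) (L := HN) v.asIdeal v.isPrime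
    v.ne_bot V.asIdeal V.isPrime V.ne_bot hV hcomm hn hnv
  obtain ⟨g, hg⟩ := exists_lift σ
  have h1 : η (n + q) g ^ (q - 1) = 1 := by
    rw [hχ' g σ hg, ← map_pow, hσ1, map_one]
  have h2 := hpN g
  have d1 := orderOf_dvd_of_pow_eq_one h1
  have d2 := orderOf_dvd_of_pow_eq_one h2
  obtain ⟨a, _, ha⟩ := (Nat.dvd_prime_pow hp.out).1 d2
  have h3 : p ^ a ≤ q - 1 := by
    rw [← ha]
    exact Nat.le_of_dvd (by omega) d1
  have h4 : q < p ^ q := Nat.lt_pow_self hp.out.one_lt
  have h5 : a < q := by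
    by_contra h
    have h6 : p ^ q ≤ p ^ a := Nat.pow_le_pow_right hp.out.pos (not_lt.1 h)
    omega
  have h6 : η n g = 1 := by
    rw [← tower_pow hη n q]
    apply orderOf_dvd_iff_pow_eq_one.1
    rw [ha]
    exact pow_dvd_pow p h5.le
  have h7 := (hH g).1 h6 x x.2
  apply hx
  have h8 := hg (algebraMap H HN x)
  apply (algebraMap HN (AlgebraicClosure K)).injective
  rw [← h8]
  exact h7

end Pool.Agent.Helper32.TH
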