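import Pool.Agent.Helper63.TH.Goals

/-!
# MP_705522_gt, thresholds, packet C4: one cell, `n ≥ 4`, upper bound of the increment
-/

set_option autoImplicit false

namespace Pool.Agent.Helper32.TH

open MeasureTheory Set Filter Topology
open Pool.Agent.Helper53.PT Pool.Agent.Helper63.TH

theorem mn_eq (a b : ℕ) : N.mn a b = min a b := by
  unfold N.mn
  cases h : Nat.ble a b with
  | true =>
    rw [min_eq_left (Nat.le_of_ble_eq_true h)]
    rfl
  | false =>
    have h1 : ¬ a ≤ b := fun h' => by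
      rw [Nat.ble_eq_true_of_le h'] at h
      cases h
    rw [min_eq_right (by omega : b ≤ a)]
    rfl

theorem sumN_eq (f : ℕ → ℕ) (n : ℕ) : sumN f n = ∑ k ∈ Finset.range n, f k := by
  induction n with
  | zero => rfl
  | succ n ih =>
    rw [Finset.sum_range_succ, ← ih]
    rfl

theorem pos_spec {B : N.Base} {b2l b3 k : ℕ} (h : pos B b2l b3 k = true) :
    1 ≤ lo B k ∧ N.xgN (k + 1) * b3 ≤ 2013265920 * b2l := by
  unfold pos at h
  cases h1 : Nat.ble 1 (lo B k) with
  | false =>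
    rw [h1] at h
    exact absurd h (by simp)
  | true =>
    rw [h1] at h
    exact ⟨Nat.le_of_ble_eq_true h1, Nat.le_of_ble_eq_true h⟩

theorem vR_nonneg (a : ℕ) : 0 ≤ vR a := by
  unfold vR
  positivity

theorem xR_nonneg (k : ℕ) : 0 ≤ xR k := by
  unfold xR aR
  exact div_nonneg (Nat.cast_nonneg _) (by norm_num)

theorem vR_mono {a b : ℕ} (h : a ≤ b) : vR a ≤ vR b := by
  unfold vR
  have : (a : ℝ) ≤ b := by exact_mod_cast h
  gcongr

theorem vR_add (a b : ℕ) : vR (a + b) = vR a + vR b := by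
  unfold vR
  push_cast
  ring

/-- the lower bound on a grid cell -/
theorem lo_le (hGRID : GGRID) {B : N.Base} {θ : ℝ} (tb : TBF B θ) (ch : CHF B θ) {k : ℕ}
    (hk : k < 1152) (h1 : 1 ≤ lo B k) {x : ℝ} (hx0 : xR k ≤ x) (hx1 : x ≤ xR (k + 1)) :
    vR (lo B k) ≤ f0 θ x := by
  have hst := (hGRID.2.2.1 k hk).1
  have hw : xR (k + 1) - xR k = (2 : ℝ) ^ N.shf k / 2 ^ 26 := by
    unfold xR aR
    rw [hst]
    push_cast
    ring
  have hw0 : 0 < xR (k + 1) - xR k := by
    rw [hw]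
    positivity
  set l := (x - xR k) / (xR (k + 1) - xR k) with hl
  have hl0 : 0 ≤ l := div_nonneg (by linarith) hw0.le
  have hl1 : l ≤ 1 := by
    rw [hl, div_le_one hw0]
    linarith
  have hxe : (1 - l) * xR k + l * xR (k + 1) = x := by
    have : l * (xR (k + 1) - xR k) = x - xR k := by
      rw [hl]
      field_simp
    linarith
  have hc := ch.c0 k hk l hl0 hl1
  rw [hxe] at hc
  have h2 := (abs_le.mp hc).1
  have p1 := tb.pl k hk.le
  have p2 := tb.pl (k + 1) (by omega)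
  have hlo : lo B k = min (N.fld (N.tPL B) k) (N.fld (N.tPL B) (k + 1)) -
      (N.cpF (N.fld (N.tST B) k) (N.shf k) + 1099511627776) := by
    rw [← mn_eq]
    rfl
  have h3 : lo B k + (N.cpF (N.fld (N.tST B) k) (N.shf k) + 1099511627776) =
      min (N.fld (N.tPL B) k) (N.fld (N.tPL B) (k + 1)) := by omega
  have h4 : vR (lo B k) + vR (N.cpF (N.fld (N.tST B) k) (N.shf k)) + 1 ≤
      vR (N.fld (N.tPL B) k) := by
    have e1 : vR 1099511627776 = 1 := by
      unfold vR
      norm_num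
    have h5 := vR_mono (h3.le.trans (min_le_left _ _))
    rw [vR_add, vR_add, e1] at h5
    linarith
  have h4' : vR (lo B k) + vR (N.cpF (N.fld (N.tST B) k) (N.shf k)) + 1 ≤
      vR (N.fld (N.tPL B) (k + 1)) := by
    have e1 : vR 1099511627776 = 1 := by
      unfold vR
      norm_num
    have h5 := vR_mono (h3.le.trans (min_le_right _ _))
    rw [vR_add, vR_add, e1] at h5
    linarith
  have h6 : vR (lo B k) + vR (N.cpF (N.fld (N.tST B) k) (N.shf k)) ≤
      (1 - l) * f0 θ (xR k) + l * f0 θ (xR (k + 1)) := by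
    have g1 : (1 - l) * (vR (lo B k) + vR (N.cpF (N.fld (N.tST B) k) (N.shf k))) ≤
        (1 - l) * f0 θ (xR k) := mul_le_mul_of_nonneg_left (by linarith) (by linarith)
    have g2 : l * (vR (lo B k) + vR (N.cpF (N.fld (N.tST B) k) (N.shf k))) ≤
        l * f0 θ (xR (k + 1)) := mul_le_mul_of_nonneg_left (by linarith) hl0
    linarith
  linarith

theorem div_lt' (a b : ℕ) : (a : ℝ) / b ≤ ((a / b : ℕ) : ℝ) + 1 := by
  rw [← Nat.floor_div_eq_div (K := ℝ) a b]
  exact (Nat.lt_floor_add_one _).le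

/-- rounding up after a shift -/
theorem shift_le (a m : ℕ) : (a : ℝ) / 2 ^ m ≤ ((Nat.succ (Nat.shiftRight a m) : ℕ) : ℝ) := by
  have h1 : Nat.shiftRight a m = a / 2 ^ m := Nat.shiftRight_eq_div_pow a m
  rw [h1]
  have := div_lt' a (2 ^ m)
  push_cast at this ⊢
  exact this

theorem qT_le {B : N.Base} {m k : ℕ} (h1 : N.shf k ≤ 24) :
    vR (N.u0F B k) ^ 2 * vR m * ((2 : ℝ) ^ N.shf k / 2 ^ 26) ≤ vR (qT B m k) := by
  have h2 := shift_le (N.u0F B k * N.u0F B k * m) (106 - N.shf k)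
  have h3 : qT B m k = Nat.succ (Nat.shiftRight (N.u0F B k * N.u0F B k * m) (106 - N.shf k)) := rfl
  rw [← h3] at h2
  unfold vR
  rw [le_div_iff₀ (by positivity)]
  refine le_trans (le_of_eq ?_) h2
  rw [eq_div_iff (by positivity)]
  have h4 : (2 : ℝ) ^ N.shf k * 2 ^ (106 - N.shf k) = 2 ^ 106 := by
    rw [← pow_add]
    congr 1
    omega
  push_cast
  calc ((N.u0F B k : ℝ) / 2 ^ 40) ^ 2 * ((m : ℝ) / 2 ^ 40) * (2 ^ N.shf k / 2 ^ 26) * 2 ^ 40 *
        2 ^ (106 - N.shf k) = (N.u0F B k : ℝ) ^ 2 * m * (2 ^ N.shf k * 2 ^ (106 - N.shf k)) *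
        (2 ^ 40 / (2 ^ 40) ^ 2 / 2 ^ 40 / 2 ^ 26) := by ring
    _ = _ := by
      rw [h4]
      ring

theorem gC4 : GC4 := by
  intro hSQ hGRID hSUM hDIF hFI hPW hCXO B a1 a2 θ θ' h2 hjk n hn
  have hθ0 : 0 < θ := by linarith [h2.th0]
  have hΔ : 0 ≤ θ' - θ := by linarith [h2.h]
  have hθ1 : θ < 1 / 2 := by linarith [h2.h, h2.th1]
  obtain ⟨hI, hV⟩ := (hDIF θ h2.th0 hθ1 n (by omega)).1 θ' (by linarith [h2.th0, h2.h]) h2.th1
  have hn1 : (1 : ℝ) ≤ n := by exact_mod_cast (by omega : 1 ≤ n)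
  have hsq : 0 < √(n : ℝ) := Real.sqrt_pos.mpr (by linarith)
  -- the numerical hypotheses
  obtain ⟨hjs, hc0⟩ : js B a1 a2 ≤ 1125899906842623 ∧ B.c0 ≤ 978565348720 := by
    unfold jk at hjk
    cases h1 : Nat.ble (js B a1 a2) 1125899906842623 with
    | false =>
      rw [h1] at hjk
      exact absurd hjk (by simp)
    | true =>
      rw [h1] at hjk
      exact ⟨Nat.le_of_ble_eq_true h1, Nat.le_of_ble_eq_true hjk⟩
  have hjsum : js B a1 a2 = ∑ k ∈ Finset.range 1152, jT B (b2L a1) (b3U a2) k := sumN_eq _ _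
  have h089 : ∀ a : ℕ, a ≤ 978565348720 → vR a ≤ 0.89 := by
    intro a ha
    refine (vR_mono ha).trans ?_
    unfold vR
    norm_num
  -- pointwise bound
  have key : ∀ x, 0 < x → ∀ hi D : ℝ, 0 ≤ hi → hi ≤ 0.89 → |f0 θ x| ≤ hi → |f0 θ' x| ≤ hi →
      |f0 θ' x - f0 θ x| ≤ D →
      1 / (2 * √(n : ℝ)) * ((f0 θ x ^ n - f0 θ' x ^ n) / (x * √x)) ≤ hi ^ 3 * (D / (x * √x)) := by
    intro x hx hi D h0 h1 ha hb hD
    have hD0 : 0 ≤ D := (abs_nonneg _).trans hD
    have hxx : 0 < x * √x := mul_pos hx (Real.sqrt_pos.mpr hx)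
    have e1 : f0 θ x ^ n - f0 θ' x ^ n ≤ D * (n * hi ^ (n - 1)) := by
      have e2 := abs_pow_sub_pow_le (f0 θ x) (f0 θ' x) n
      have e3 : max |f0 θ x| |f0 θ' x| ^ (n - 1) ≤ hi ^ (n - 1) :=
        pow_le_pow_left₀ ((abs_nonneg _).trans (le_max_left _ _)) (max_le ha hb) _
      calc f0 θ x ^ n - f0 θ' x ^ n ≤ |f0 θ x - f0 θ' x| * n * max |f0 θ x| |f0 θ' x| ^ (n - 1) :=
            (le_abs_self _).trans e2
        _ ≤ D * n * hi ^ (n - 1) := by
          rw [abs_sub_comm]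
          exact mul_le_mul (mul_le_mul_of_nonneg_right hD (by positivity)) e3 (by positivity)
            (by positivity)
        _ = D * (n * hi ^ (n - 1)) := by ring
    have e4 := hPW n hi hn h0 h1
    have e5 : 1 / (2 * √(n : ℝ)) * (n * hi ^ (n - 1)) ≤ hi ^ 3 := by
      have e6 : 1 / (2 * √(n : ℝ)) * (n * hi ^ (n - 1)) = √(n : ℝ) * hi ^ (n - 1) / 2 := by
        have e7 : (n : ℝ) = √(n : ℝ) * √(n : ℝ) := (Real.mul_self_sqrt (by linarith)).symm
        have e8 : (1 : ℝ) / (2 * √(n : ℝ)) * ((√(n : ℝ) * √(n : ℝ)) * hi ^ (n - 1)) =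
            √(n : ℝ) * hi ^ (n - 1) / 2 := by
          field_simp
        rw [← e7] at e8
        exact e8
      rw [e6]
      linarith
    calc 1 / (2 * √(n : ℝ)) * ((f0 θ x ^ n - f0 θ' x ^ n) / (x * √x)) ≤
          1 / (2 * √(n : ℝ)) * ((D * (n * hi ^ (n - 1))) / (x * √x)) := by gcongr
      _ = (1 / (2 * √(n : ℝ)) * (n * hi ^ (n - 1))) * (D / (x * √x)) := by ring
      _ ≤ hi ^ 3 * (D / (x * √x)) := mul_le_mul_of_nonneg_right e5 (by positivity)
  set bm : ℝ := vR (bmU a2) with hbm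
  have hbm0 : 0 ≤ bm := vR_nonneg _
  -- the cells
  have hcell : ∀ k < 1152, ∀ x, xR k < x → x < xR (k + 1) →
      1 / (2 * √(n : ℝ)) * ((f0 θ x ^ n - f0 θ' x ^ n) / (x * √x)) ≤
      (if pos B (b2L a1) (b3U a2) k = true then 0
        else vR (N.u0F B k) ^ 3 * (0.146 * ((θ' - θ) * bm))) := by
    intro k hk x hx0 hx1
    have hx : 0 < x := lt_of_le_of_lt (xR_nonneg k) hx0
    have hxx : 0 < x * √x := mul_pos hx (Real.sqrt_pos.mpr hx)
    split_ifs with hp
    · obtain ⟨p1, p2⟩ := pos_spec hp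
      have q1 := lo_le hGRID h2.tb h2.ch hk p1 hx0.le hx1.le
      have q2 : 0 ≤ f0 θ x := (vR_nonneg _).trans q1
      have q3 : f0 θ x ≤ f0 θ' x := by
        have q4 := hCXO θ θ' hθ0 h2.h h2.th1 x hx.le
        have q5 : x * vR (b3U a2) ≤ 30 * vR (b2L a1) := by
          have r1 : (N.xgN (k + 1) : ℝ) * (b3U a2 : ℝ) ≤ 2013265920 * (b2L a1 : ℝ) := by
            exact_mod_cast p2
          have r2 : x * 2 ^ 26 ≤ (N.xgN (k + 1) : ℝ) := by
            have := hx1.le
            unfold xR aR at this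
            rwa [le_div_iff₀ (by positivity)] at this
          have r3 : x * 2 ^ 26 * (b3U a2 : ℝ) ≤ 2013265920 * (b2L a1 : ℝ) :=
            (mul_le_mul_of_nonneg_right r2 (Nat.cast_nonneg _)).trans r1
          unfold vR
          rw [mul_div_assoc', mul_div_assoc']
          exact div_le_div_of_nonneg_right (by linarith) (by norm_num)
        have q6 := h2.l2
        have q7 := h2.u3
        have q8 : 0 ≤ x ^ 2 / 24 * (mo θ' 2 - mo θ 2) - x ^ 3 / 720 * (mo θ' 3 - mo θ 3) := by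
          have s1 : x ^ 3 / 720 * (mo θ' 3 - mo θ 3) ≤ x ^ 3 / 720 * ((θ' - θ) * vR (b3U a2)) :=
            mul_le_mul_of_nonneg_left q7 (by positivity)
          have s2 : x ^ 2 / 24 * ((θ' - θ) * vR (b2L a1)) ≤ x ^ 2 / 24 * (mo θ' 2 - mo θ 2) :=
            mul_le_mul_of_nonneg_left q6 (by positivity)
          have s3 : x ^ 3 / 720 * ((θ' - θ) * vR (b3U a2)) =
              x ^ 2 / 720 * (θ' - θ) * (x * vR (b3U a2)) := by ring
          have s4 : x ^ 2 / 720 * (θ' - θ) * (x * vR (b3U a2)) ≤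
              x ^ 2 / 720 * (θ' - θ) * (30 * vR (b2L a1)) :=
            mul_le_mul_of_nonneg_left q5 (by positivity)
          have s5 : x ^ 2 / 720 * (θ' - θ) * (30 * vR (b2L a1)) =
              x ^ 2 / 24 * ((θ' - θ) * vR (b2L a1)) := by ring
          linarith
        linarith
      have q9 : f0 θ x ^ n ≤ f0 θ' x ^ n := pow_le_pow_left₀ q2 q3 n
      have q10 : (f0 θ x ^ n - f0 θ' x ^ n) / (x * √x) ≤ 0 :=
        div_nonpos_of_nonpos_of_nonneg (by linarith) hxx.le
      exact mul_nonpos_of_nonneg_of_nonpos (by positivity) q10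
    · have hu : N.u0F B k ≤ 978565348720 := by
        by_contra hcon
        have e1 : jT B (b2L a1) (b3U a2) k = 1125899906842624 := by
          unfold jT
          have e2 : pos B (b2L a1) (b3U a2) k = false := by simpa using hp
          have e3 : Nat.ble (N.u0F B k) 978565348720 = false := by
            cases h : Nat.ble (N.u0F B k) 978565348720 with
            | false => rfl
            | true => exact absurd (Nat.le_of_ble_eq_true h) hcon
          rw [e2, e3]
          rfl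
        have e4 : jT B (b2L a1) (b3U a2) k ≤ js B a1 a2 := by
          rw [hjsum]
          exact Finset.single_le_sum (f := fun k => jT B (b2L a1) (b3U a2) k)
            (fun _ _ => Nat.zero_le _) (Finset.mem_range.mpr hk)
        omega
      have hlip := (aLIP hθ0 h2.h h2.th1 hx.le).2.1
      have e1 := key x hx (vR (N.u0F B k)) (0.146 * (x * √x) * (m3 θ' - m3 θ)) (vR_nonneg _)
        (h089 _ hu) (h2.ch.b0 k hk x hx0.le hx1.le) (h2.ch'.b0 k hk x hx0.le hx1.le) hlip
      refine e1.trans (mul_le_mul_of_nonneg_left ?_ (pow_nonneg (vR_nonneg _) 3))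
      have e2 : 0.146 * (x * √x) * (m3 θ' - m3 θ) / (x * √x) = 0.146 * (m3 θ' - m3 θ) := by
        field_simp
      rw [e2]
      have := h2.um
      linarith
  -- the tail
  have htail : ∀ x, 64 < x → 1 / (2 * √(n : ℝ)) * ((f0 θ x ^ n - f0 θ' x ^ n) / (x * √x)) ≤
      (16 * (θ' - θ) * vR B.c0 ^ 3) / (x * √x) := by
    intro x hx
    have hx0 : 0 < x := by linarith
    have e1 := key x hx0 (vR B.c0) (16 * (θ' - θ)) (vR_nonneg _) (h089 _ hc0)
      (h2.c0 x hx.le).1 (h2.c0 x hx.le).2 (hFI θ θ' h2.th0 h2.h h2.th1 x hx0).1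
    refine e1.trans (le_of_eq ?_)
    ring
  have hgI : IntegrableOn (fun x => 1 / (2 * √(n : ℝ)) *
      ((f0 θ x ^ n - f0 θ' x ^ n) / (x * √x))) (Ioi 0) := hI.const_mul _
  have hmain := hSUM hGRID _ _ _ hgI hcell htail
  rw [hV, ← integral_const_mul]
  refine hmain.trans ?_
  -- the sum
  have hterm : ∀ k ∈ Finset.range 1152,
      (if pos B (b2L a1) (b3U a2) k = true then 0
        else vR (N.u0F B k) ^ 3 * (0.146 * ((θ' - θ) * bm))) * ((2 : ℝ) ^ N.shf k / 2 ^ 26) ≤
      0.146 * ((θ' - θ) * bm) * vR (jT B (b2L a1) (b3U a2) k) := by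
    intro k hk
    rw [Finset.mem_range] at hk
    split_ifs with hp
    · rw [zero_mul]
      exact mul_nonneg (mul_nonneg (by norm_num) (mul_nonneg hΔ hbm0)) (vR_nonneg _)
    · have e1 : vR (N.u0F B k) ^ 3 * ((2 : ℝ) ^ N.shf k / 2 ^ 26) ≤
          vR (jT B (b2L a1) (b3U a2) k) := by
        have e2 : pos B (b2L a1) (b3U a2) k = false := by simpa using hp
        unfold jT
        rw [e2]
        cases h : Nat.ble (N.u0F B k) 978565348720 with
        | true =>
          have e3 := qT_le (B := B) (m := N.u0F B k) (hGRID.2.2.1 k hk).2.2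
          refine le_trans (le_of_eq ?_) e3
          ring
        | false =>
          have e3 : vR (N.u0F B k) ≤ 1 := by
            have e4 : N.u0F B k ≤ 1099511627776 := by
              unfold N.u0F
              rw [mn_eq]
              exact min_le_left _ _
            refine (vR_mono e4).trans ?_
            unfold vR
            norm_num
          have e5 : (2 : ℝ) ^ N.shf k ≤ 2 ^ 24 :=
            pow_le_pow_right₀ (by norm_num) (hGRID.2.2.1 k hk).2.2
          have e6 : vR (N.u0F B k) ^ 3 ≤ 1 := pow_le_one₀ (vR_nonneg _) e3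
          have e7 : (2 : ℝ) ^ N.shf k / 2 ^ 26 ≤ 1 := by
            rw [div_le_one (by positivity)]
            exact e5.trans (by norm_num)
          have e8 : vR (N.u0F B k) ^ 3 * ((2 : ℝ) ^ N.shf k / 2 ^ 26) ≤ 1 :=
            mul_le_one₀ e6 (by positivity) e7
          refine e8.trans ?_
          show (1 : ℝ) ≤ vR 1125899906842624
          unfold vR
          norm_num
      calc vR (N.u0F B k) ^ 3 * (0.146 * ((θ' - θ) * bm)) * ((2 : ℝ) ^ N.shf k / 2 ^ 26) =
            0.146 * ((θ' - θ) * bm) * (vR (N.u0F B k) ^ 3 * ((2 : ℝ) ^ N.shf k / 2 ^ 26)) := by ring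
        _ ≤ _ := mul_le_mul_of_nonneg_left e1 (mul_nonneg (by norm_num) (mul_nonneg hΔ hbm0))
  have hsum := Finset.sum_le_sum hterm
  rw [← Finset.mul_sum] at hsum
  have hjv : ∑ k ∈ Finset.range 1152, vR (jT B (b2L a1) (b3U a2) k) = vR (js B a1 a2) := by
    rw [hjsum]
    unfold vR
    push_cast
    rw [Finset.sum_div]
  rw [hjv] at hsum
  -- rounding
  have hr1 : 0.146 * bm * vR (js B a1 a2) ≤
      vR (Nat.succ (Nat.shiftRight (Nat.mul (c146 (bmU a2)) (js B a1 a2)) 40)) := by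
    have e1 : 0.146 * bm ≤ vR (c146 (bmU a2)) := by
      have e2 := div_lt' (146 * bmU a2) 1000
      have e3 : (c146 (bmU a2) : ℝ) = ((146 * bmU a2 / 1000 : ℕ) : ℝ) + 1 := by
        have : c146 (bmU a2) = 146 * bmU a2 / 1000 + 1 := rfl
        rw [this]
        push_cast
        rfl
      rw [← e3] at e2
      rw [hbm]
      unfold vR
      rw [mul_div_assoc']
      gcongr
      push_cast at e2
      linarith
    have e4 := shift_le (c146 (bmU a2) * js B a1 a2) 40
    have e5 : vR (c146 (bmU a2)) * vR (js B a1 a2) ≤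
        vR (Nat.succ (Nat.shiftRight (Nat.mul (c146 (bmU a2)) (js B a1 a2)) 40)) := by
      unfold vR
      rw [le_div_iff₀ (by positivity)]
      refine le_trans (le_of_eq ?_) e4
      push_cast
      ring
    exact (mul_le_mul_of_nonneg_right e1 (vR_nonneg _)).trans e5
  have hr2 : 4 * vR B.c0 ^ 3 ≤ vR (tC B) := by
    have e4 := shift_le (4 * (B.c0 * B.c0 * B.c0)) 80
    have e5 : tC B = Nat.succ (Nat.shiftRight (4 * (B.c0 * B.c0 * B.c0)) 80) := rfl
    rw [← e5] at e4
    unfold vR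
    rw [le_div_iff₀ (by positivity)]
    refine le_trans (le_of_eq ?_) e4
    push_cast
    ring
  have hfin : vR (sl4 B a1 a2) =
      vR (Nat.succ (Nat.shiftRight (Nat.mul (c146 (bmU a2)) (js B a1 a2)) 40)) + vR (tC B) :=
    vR_add _ _
  rw [hfin]
  have t1 : 0.146 * ((θ' - θ) * bm) * vR (js B a1 a2) = (θ' - θ) * (0.146 * bm * vR (js B a1 a2)) := by
    ring
  have t2 : 16 * (θ' - θ) * vR B.c0 ^ 3 / 4 = (θ' - θ) * (4 * vR B.c0 ^ 3) := by ring
  have t3 := mul_le_mul_of_nonneg_left hr1 hΔ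
  have t4 := mul_le_mul_of_nonneg_left hr2 hΔ
  rw [t2, mul_add]
  linarith

end Pool.Agent.Helper32.TH
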