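import Mathlib

set_option autoImplicit false
set_option linter.unusedSectionVars false

namespace Pool.Agent.Helper32.TH

section Tame

variable {R G : Type*} [CommRing R] [IsDedekindDomain R] [Group G] [MulSemiringAction G R]
  {V : Ideal R}

theorem smul_mem_V {τ : G} (h : ∀ x : R, τ • x - x ∈ V) {x : R} (hx : x ∈ V) : τ • x ∈ V := by
  have := V.add_mem (h x) hx
  simpa using this

theorem smul_mem_pow {τ : G} (h : ∀ x : R, x ∈ V → τ • x ∈ V) (i : ℕ) {x : R}
    (hx : x ∈ V ^ i) : τ • x ∈ V ^ i := by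
  have h1 : (V ^ i).map (MulSemiringAction.toRingHom G R τ) ≤ V ^ i := by
    rw [Ideal.map_pow]
    refine Ideal.pow_right_mono ?_ i
    rw [Ideal.map_le_iff_le_comap]
    intro y hy
    exact h y hy
  exact h1 (Ideal.mem_map_of_mem _ hx)

theorem pow_decomp (hV : V.IsPrime) (hne : V ≠ ⊥) {π : R} (hπ : π ∈ V) (hπ2 : π ∉ V ^ 2)
    (i : ℕ) : ∀ y ∈ V ^ i, ∃ r s, s ∈ V ^ (i + 1) ∧ y = π ^ i * r + s := by
  induction i with
  | zero =>
      intro y _
      exact ⟨y, 0, Ideal.zero_mem _, by simp⟩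
  | succ i ih =>
      intro y hy
      rw [pow_succ] at hy
      refine Submodule.mul_induction_on hy ?_ ?_
      · intro a ha b hb
        obtain ⟨r, s, hs, rfl⟩ := ih a ha
        obtain ⟨d, e, he, hde⟩ := Ideal.exists_mul_add_mem_pow_succ (i := 1) hne π b
          (by simpa using hπ) (by simpa using hπ2) (by simpa using hb)
        refine ⟨r * d, π ^ i * r * e + s * b, ?_, ?_⟩
        · refine Ideal.add_mem _ ?_ ?_
          · have h1 : π ^ i * r ∈ V ^ i := Ideal.mul_mem_right _ _ (Ideal.pow_mem_pow hπ i)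
            have h2 := Ideal.mul_mem_mul h1 he
            rw [← pow_add] at h2
            exact h2
          · have h2 := Ideal.mul_mem_mul hs hb
            rw [← pow_succ] at h2
            exact h2
        · rw [← hde]; ring
      · rintro a b ⟨r, s, hs, rfl⟩ ⟨r', s', hs', rfl⟩
        exact ⟨r + r', s + s', Ideal.add_mem _ hs hs', by ring⟩

theorem pow_trivial {τ : G} (h : ∀ x : R, τ • x - x ∈ V) {π : R} (hπ : π ∈ V)
    (hτπ : τ • π - π ∈ V ^ 2) (i : ℕ) : (τ • π) ^ i - π ^ i ∈ V ^ (i + 1) := by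
  induction i with
  | zero => simp
  | succ i ih =>
      have e1 : (τ • π) ^ (i + 1) - π ^ (i + 1) =
          (τ • π) ^ i * (τ • π - π) + ((τ • π) ^ i - π ^ i) * π := by ring
      rw [e1]
      refine Ideal.add_mem _ ?_ ?_
      · have h1 := Ideal.mul_mem_mul (Ideal.pow_mem_pow (smul_mem_V h hπ) i) hτπ
        rw [← pow_add] at h1
        exact h1
      · have h1 := Ideal.mul_mem_mul ih hπ
        rw [← pow_succ] at h1
        exact h1

theorem step_trivial (hV : V.IsPrime) (hne : V ≠ ⊥) {τ : G} (h : ∀ x : R, τ • x - x ∈ V) {π : R}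
    (hπ : π ∈ V) (hπ2 : π ∉ V ^ 2) (hτπ : τ • π - π ∈ V ^ 2) (i : ℕ) {y : R} (hy : y ∈ V ^ i) :
    τ • y - y ∈ V ^ (i + 1) := by
  obtain ⟨r, s, hs, rfl⟩ := pow_decomp hV hne hπ hπ2 i y hy
  rw [smul_add, smul_mul', smul_pow']
  have e1 : (τ • π) ^ i * τ • r + τ • s - (π ^ i * r + s) =
      (τ • π) ^ i * (τ • r - r) + ((τ • π) ^ i - π ^ i) * r + (τ • s - s) := by ring
  rw [e1]
  refine Ideal.add_mem _ (Ideal.add_mem _ ?_ ?_) ?_
  · have h1 := Ideal.mul_mem_mul (Ideal.pow_mem_pow (smul_mem_V h hπ) i) (h r)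
    rw [← pow_succ] at h1
    exact h1
  · exact Ideal.mul_mem_right _ _ (pow_trivial h hπ hτπ i)
  · exact Ideal.sub_mem _ (smul_mem_pow (fun x hx => smul_mem_V h hx) _ hs) hs

theorem wild (hV : V.IsPrime) (hne : V ≠ ⊥) {τ : G} (h : ∀ x : R, τ • x - x ∈ V) {π : R}
    (hπ : π ∈ V) (hπ2 : π ∉ V ^ 2) (hτπ : τ • π - π ∈ V ^ 2) {n : ℕ} (hn : τ ^ n = 1)
    (hnV : (n : R) ∉ V) (x : R) : τ • x = x := by
  have key : ∀ i : ℕ, ∀ x : R, τ • x - x ∈ V ^ i := by
    intro i
    induction i with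
    | zero => intro x; simp
    | succ i ih =>
        intro x
        have h1 : ∀ m : ℕ, τ ^ m • x - x - (m : R) * (τ • x - x) ∈ V ^ (i + 1) := by
          intro m
          induction m with
          | zero => simp
          | succ m hm =>
              have e1 : τ ^ (m + 1) • x - x - ((m + 1 : ℕ) : R) * (τ • x - x) =
                  τ • (τ ^ m • x - x - (m : R) * (τ • x - x)) +
                    (m : R) * (τ • (τ • x - x) - (τ • x - x)) := by
                have e2 : τ • (m : R) = (m : R) := map_natCast (MulSemiringAction.toRingHom G R τ) m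
                rw [pow_succ', mul_smul, smul_sub, smul_sub, smul_mul', e2]
                push_cast
                ring
              rw [e1]
              refine Ideal.add_mem _ (smul_mem_pow (fun x hx => smul_mem_V h hx) _ hm) ?_
              exact Ideal.mul_mem_left _ _ (step_trivial hV hne h hπ hπ2 hτπ i (ih x))
        have h2 := h1 n
        rw [hn, one_smul, sub_self, zero_sub] at h2
        have h3 : (n : R) * (τ • x - x) ∈ V ^ (i + 1) := by simpa using Ideal.neg_mem_iff _ |>.2 h2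
        rcases Ideal.IsPrime.mul_mem_pow V h3 with h4 | h4
        · exact absurd h4 hnV
        · exact h4
  have h1 : τ • x - x ∈ (⨅ i : ℕ, V ^ i : Ideal R) := by
    rw [Ideal.mem_iInf]
    exact fun i => key i x
  rw [Ideal.iInf_pow_eq_bot_of_isDomain V hV.ne_top] at h1
  exact sub_eq_zero.1 (Ideal.mem_bot.1 h1)

theorem tame (hV : V.IsPrime) (hne : V ≠ ⊥) {σ φ : G} (hc : σ * φ = φ * σ)
    (hσ : ∀ x : R, σ • x - x ∈ V) {q : ℕ} (hq : 1 ≤ q) (hφ : ∀ x : R, φ • x - x ^ q ∈ V)
    {n : ℕ} (hn : σ ^ n = 1) (hnV : (n : R) ∉ V) (x : R) : σ ^ (q - 1) • x = x := by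
  have hφV : ∀ x : R, x ∈ V → φ • x ∈ V := by
    intro x hx
    have h1 := Ideal.add_mem _ (hφ x) (Ideal.pow_mem_of_mem V hx q hq)
    simpa using h1
  have hφV' : ∀ x : R, x ∈ V → φ⁻¹ • x ∈ V := by
    intro x hx
    have h1 := hφ (φ⁻¹ • x)
    rw [smul_inv_smul] at h1
    have h2 : (φ⁻¹ • x) ^ q ∈ V := by
      have := Ideal.sub_mem _ hx h1
      simpa using this
    exact hV.mem_of_pow_mem _ h2
  have hσV : ∀ x : R, x ∈ V → σ • x ∈ V := fun x hx => smul_mem_V hσ hx
  have hσV' : ∀ x : R, x ∈ V → σ⁻¹ • x ∈ V := by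
    intro x hx
    have h1 := hσ (σ⁻¹ • x)
    rw [smul_inv_smul] at h1
    have := Ideal.sub_mem _ hx h1
    simpa using this
  obtain ⟨π, hπ', hπ2'⟩ := Ideal.exists_mem_pow_notMem_pow_succ V hne hV.ne_top 1
  have hπ : π ∈ V := by simpa using hπ'
  have hπ2 : π ∉ V ^ 2 := by simpa using hπ2'
  obtain ⟨d, e, he, hd⟩ := Ideal.exists_mul_add_mem_pow_succ (i := 1) hne π (σ • π)
    (by simpa using hπ) (by simpa using hπ2) (by simpa using hσV π hπ)
  obtain ⟨c, e', he', hcc⟩ := Ideal.exists_mul_add_mem_pow_succ (i := 1) hne π (φ • π)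
    (by simpa using hπ) (by simpa using hπ2) (by simpa using hφV π hπ)
  have he2 : e ∈ V ^ 2 := he
  have he2' : e' ∈ V ^ 2 := he'
  have hd0 : d ∉ V := by
    intro h0
    apply hπ2
    have h1 : σ • π ∈ V ^ 2 := by
      rw [← hd]
      refine Ideal.add_mem _ ?_ he2
      rw [pow_two]
      exact Ideal.mul_mem_mul hπ h0
    have h2 := smul_mem_pow hσV' 2 h1
    rwa [inv_smul_smul] at h2
  have hc0 : c ∉ V := by
    intro h0
    apply hπ2
    have h1 : φ • π ∈ V ^ 2 := by
      rw [← hcc]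
      refine Ideal.add_mem _ ?_ he2'
      rw [pow_two]
      exact Ideal.mul_mem_mul hπ h0
    have h2 := smul_mem_pow hφV' 2 h1
    rwa [inv_smul_smul] at h2
  -- the Frobenius relation
  have hrel : π * (d * c - c * d ^ q) ∈ V ^ 2 := by
    have h1 : σ • (φ • π) - π * (d * c) ∈ V ^ 2 := by
      have e1 : σ • (φ • π) - π * (d * c) =
          σ • π * (σ • c - c) + (σ • π - π * d) * c + σ • e' := by
        rw [← hcc, smul_add, smul_mul']; ring
      rw [e1]
      refine Ideal.add_mem _ (Ideal.add_mem _ ?_ ?_) (smul_mem_pow hσV 2 he2')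
      · rw [pow_two]; exact Ideal.mul_mem_mul (hσV π hπ) (hσ c)
      · refine Ideal.mul_mem_right _ _ ?_
        rw [← hd]; simpa using he2
    have h2 : φ • (σ • π) - π * (c * d ^ q) ∈ V ^ 2 := by
      have e1 : φ • (σ • π) - π * (c * d ^ q) =
          φ • π * (φ • d - d ^ q) + (φ • π - π * c) * d ^ q + φ • e := by
        rw [← hd, smul_add, smul_mul']; ring
      rw [e1]
      refine Ideal.add_mem _ (Ideal.add_mem _ ?_ ?_) (smul_mem_pow hφV 2 he2)
      · rw [pow_two]; exact Ideal.mul_mem_mul (hφV π hπ) (hφ d)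
      · refine Ideal.mul_mem_right _ _ ?_
        rw [← hcc]; simpa using he2'
    have h3 : σ • (φ • π) = φ • (σ • π) := by rw [← mul_smul, hc, mul_smul]
    rw [h3] at h1
    have h4 := Ideal.sub_mem _ h2 h1
    have e2 : φ • (σ • π) - π * (c * d ^ q) - (φ • (σ • π) - π * (d * c)) =
        π * (d * c - c * d ^ q) := by ring
    rwa [e2] at h4
  have h5 : d * c - c * d ^ q ∈ V :=
    Ideal.mem_prime_of_mul_mem_pow (i := 1) hne (by simpa using hπ2) (by simpa using hrel)
  have h6 : 1 - d ^ (q - 1) ∈ V := by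
    obtain ⟨k, rfl⟩ : ∃ k, q = k + 1 := ⟨q - 1, by omega⟩
    have e1 : d * c - c * d ^ (k + 1) = (c * d) * (1 - d ^ k) := by ring
    rw [e1] at h5
    rcases hV.mem_or_mem h5 with h7 | h7
    · rcases hV.mem_or_mem h7 with h8 | h8
      · exact absurd h8 hc0
      · exact absurd h8 hd0
    · simpa using h7
  have h7 : ∀ m : ℕ, (σ ^ m) • π - π * d ^ m ∈ V ^ 2 := by
    intro m
    induction m with
    | zero => simp
    | succ m ih =>
        have h8 : σ • d ^ m - d ^ m ∈ V := hσ (d ^ m)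
        have e1 : σ ^ (m + 1) • π - π * d ^ (m + 1) =
            σ • (σ ^ m • π - π * d ^ m) + (σ • π * (σ • d ^ m - d ^ m) +
              (σ • π - π * d) * d ^ m) := by
          rw [pow_succ', mul_smul, smul_sub, smul_mul']; ring
        rw [e1]
        refine Ideal.add_mem _ (smul_mem_pow hσV 2 ih) (Ideal.add_mem _ ?_ ?_)
        · rw [pow_two]; exact Ideal.mul_mem_mul (hσV π hπ) h8
        · refine Ideal.mul_mem_right _ _ ?_
          rw [← hd]; simpa using he2
  have h8 : ∀ m : ℕ, ∀ x : R, σ ^ m • x - x ∈ V := by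
    intro m
    induction m with
    | zero => intro x; simp
    | succ m ih =>
        intro x
        have e1 : σ ^ (m + 1) • x - x = (σ • (σ ^ m • x) - σ ^ m • x) + (σ ^ m • x - x) := by
          rw [pow_succ', mul_smul]; ring
        rw [e1]
        exact Ideal.add_mem _ (hσ _) (ih x)
  refine wild hV hne (h8 (q - 1)) hπ hπ2 ?_ (n := n) ?_ hnV x
  · have h9 := h7 (q - 1)
    have e1 : σ ^ (q - 1) • π - π = (σ ^ (q - 1) • π - π * d ^ (q - 1)) -
        π * (1 - d ^ (q - 1)) := by ring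
    rw [e1]
    refine Ideal.sub_mem _ h9 ?_
    rw [pow_two]
    exact Ideal.mul_mem_mul hπ h6
  · rw [← pow_mul, mul_comm, pow_mul, hn, one_pow]

end Tame

end Pool.Agent.Helper32.TH
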