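import Pool.Agent.Helper32.TH.DUNRa

set_option autoImplicit false
set_option linter.unusedSectionVars false

namespace Pool.Agent.Helper32.TH

open NumberField IsDedekindDomain
open scoped Pointwise

section Ram

variable {K F L : Type*} [Field K] [Field F] [Field L] [NumberField K] [NumberField F]
  [NumberField L] [Algebra K F] [Algebra F L] [Algebra K L] [IsScalarTower K F L] [IsGalois K L]

theorem finite_quot' (W : Ideal (𝓞 L)) (hW : W ≠ ⊥) : Finite (𝓞 L ⧸ W) :=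
  Ideal.finiteQuotientOfFreeOfNeBot W hW

theorem perfect_res (v : Ideal (𝓞 K)) [v.IsPrime] (hv : v ≠ ⊥) : PerfectField v.ResidueField := by
  have h1 : Finite (𝓞 K ⧸ v) := Ideal.finiteQuotientOfFreeOfNeBot v hv
  have h2 : v.IsMaximal := Ideal.IsPrime.isMaximal inferInstance hv
  have h3 : Function.Surjective (algebraMap (𝓞 K ⧸ v) v.ResidueField) :=
    (Ideal.bijective_algebraMap_quotient_residueField v).2
  have h4 : Finite v.ResidueField := Finite.of_surjective _ h3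
  infer_instance

theorem exists_moves (v : Ideal (𝓞 K)) (hv : v.IsPrime) (hv0 : v ≠ ⊥) (V : Ideal (𝓞 F))
    (hVp : V.IsPrime) (hV0 : V ≠ ⊥) (hVv : v.map (algebraMap (𝓞 K) (𝓞 F)) ≤ V ^ 2) :
    ∃ W : Ideal (𝓞 L), W.IsPrime ∧ W ≠ ⊥ ∧ W.under (𝓞 K) = v ∧
      ∃ σ : L ≃ₐ[K] L, (∀ x : 𝓞 L, σ • x - x ∈ W) ∧
        ∃ x : F, σ (algebraMap F L x) ≠ algebraMap F L x := by
  have hGF : IsGalois F L := IsGalois.tower_top_of_isGalois K F L
  have hvm : v.IsMaximal := hv.isMaximal hv0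
  have hVm : V.IsMaximal := hVp.isMaximal hV0
  have hle : v.map (algebraMap (𝓞 K) (𝓞 F)) ≤ V := hVv.trans (Ideal.pow_le_self two_ne_zero)
  have hund : V.under (𝓞 K) = v := by
    have h1 : v ≤ V.under (𝓞 K) := Ideal.map_le_iff_le_comap.1 hle
    exact (hvm.eq_of_le (Ideal.IsPrime.under (𝓞 K) V).ne_top h1).symm
  haveI hVl : V.LiesOver v := ⟨hund.symm⟩
  obtain ⟨W, hWm, hWl⟩ := Ideal.exists_maximal_ideal_liesOver_of_isIntegral (S := 𝓞 L) V
  haveI hWv : W.LiesOver v := Ideal.LiesOver.trans W V v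
  haveI hWp : W.IsPrime := hWm.isPrime
  have hW0 : W ≠ ⊥ := Ideal.ne_bot_of_liesOver_of_ne_bot hV0 W
  refine ⟨W, hWp, hW0, (Ideal.LiesOver.over (P := W) (p := v)).symm, ?_⟩
  by_contra hcon
  push Not at hcon
  haveI p1 : PerfectField v.ResidueField := perfect_res v hv0
  haveI p2 : PerfectField V.ResidueField := perfect_res V hV0
  have c1 : Nat.card (W.inertia (L ≃ₐ[K] L)) = W.ramificationIdx (𝓞 K) := by
    rw [Ideal.card_inertia_eq_ramificationIdxIn v W,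
      Ideal.ramificationIdxIn_eq_ramificationIdx v W (L ≃ₐ[K] L)]
  have c2 : Nat.card (W.inertia (L ≃ₐ[F] L)) = W.ramificationIdx (𝓞 F) := by
    rw [Ideal.card_inertia_eq_ramificationIdxIn V W,
      Ideal.ramificationIdxIn_eq_ramificationIdx V W (L ≃ₐ[F] L)]
  have tw : W.ramificationIdx (𝓞 K) = V.ramificationIdx (𝓞 K) * W.ramificationIdx (𝓞 F) :=
    Ideal.ramificationIdx_tower V W
  have hle2 : Nat.card (W.inertia (L ≃ₐ[K] L)) ≤ Nat.card (W.inertia (L ≃ₐ[F] L)) := by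
    refine Nat.card_le_card_of_injective
      (fun σ => ⟨AlgEquiv.ofRingEquiv (f := (σ.1 : L ≃ₐ[K] L).toRingEquiv)
        (fun x => hcon σ.1 σ.2 x), fun x => σ.2 x⟩) ?_
    intro σ τ h
    apply Subtype.ext
    apply AlgEquiv.ext
    intro x
    have h1 := congrArg (fun t => (t.1 : L ≃ₐ[F] L) x) h
    exact h1
  have hpos : 0 < W.ramificationIdx (𝓞 F) := Ideal.ramificationIdx_pos W (𝓞 F)
  have hposV : 0 < V.ramificationIdx (𝓞 K) := Ideal.ramificationIdx_pos V (𝓞 K)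
  have hne1 : V.ramificationIdx (𝓞 K) ≠ 1 := by
    rw [← Ideal.ramificationIdx'_eq_ramificationIdx v V hv0]
    exact (Ideal.ramificationIdx'_ne_one_iff hle).2 hVv
  have h2 : 2 ≤ V.ramificationIdx (𝓞 K) := by omega
  rw [c1, c2, tw] at hle2
  nlinarith

theorem exists_moves_tame (v : Ideal (𝓞 K)) (hv : v.IsPrime) (hv0 : v ≠ ⊥) (V : Ideal (𝓞 F))
    (hVp : V.IsPrime) (hV0 : V ≠ ⊥) (hVv : v.map (algebraMap (𝓞 K) (𝓞 F)) ≤ V ^ 2)
    (hcomm : ∀ σ τ : L ≃ₐ[K] L, σ * τ = τ * σ) {n : ℕ} (hn : ∀ σ : L ≃ₐ[K] L, σ ^ n = 1)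
    (hnv : (n : 𝓞 K) ∉ v) :
    ∃ σ : L ≃ₐ[K] L, σ ^ (Nat.card (𝓞 K ⧸ v) - 1) = 1 ∧
        ∃ x : F, σ (algebraMap F L x) ≠ algebraMap F L x := by
  obtain ⟨W, hWp, hW0, hWv, σ, hσ, hx⟩ := exists_moves (L := L) v hv hv0 V hVp hV0 hVv
  refine ⟨σ, ?_, hx⟩
  haveI : Finite (𝓞 L ⧸ W) := finite_quot' W hW0
  obtain ⟨φ, hφ⟩ := IsArithFrobAt.exists_of_isInvariant (𝓞 K) (L ≃ₐ[K] L) W
  have hφ' : ∀ x : 𝓞 L, φ • x - x ^ Nat.card (𝓞 K ⧸ v) ∈ W := by
    intro x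
    have h1 := hφ x
    rw [hWv] at h1
    exact h1
  haveI : Finite (𝓞 K ⧸ v) := finite_quot' v hv0
  haveI : Nontrivial (𝓞 K ⧸ v) := Ideal.Quotient.nontrivial_iff.2 hv.ne_top
  have hq : 1 ≤ Nat.card (𝓞 K ⧸ v) := Nat.card_pos
  have hnW : ((n : ℕ) : 𝓞 L) ∉ W := by
    intro h
    apply hnv
    rw [← hWv, Ideal.under, Ideal.mem_comap, map_natCast]
    exact h
  have key := tame hWp hW0 (hcomm σ φ) hσ hq hφ' (hn σ) hnW
  apply AlgEquiv.ext
  intro y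
  obtain ⟨a, b, hb, rfl⟩ := IsFractionRing.div_surjective (A := 𝓞 L) y
  have e1 : ∀ a : 𝓞 L, (σ ^ (Nat.card (𝓞 K ⧸ v) - 1)) (algebraMap (𝓞 L) L a) =
      algebraMap (𝓞 L) L a := by
    intro a
    have h1 := key a
    have h2 := congrArg (algebraMap (𝓞 L) L) h1
    exact h2
  rw [map_div₀, e1, e1]
  rfl

end Ram

end Pool.Agent.Helper32.TH
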