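import Pool.Agent.Helper38.TH.GoalsE
import Mathlib.RingTheory.Polynomial.Eisenstein.IsIntegral

/-!
# Project TH, packet E_IMG: the cyclotomic character has infinite image on every decomposition group
-/

set_option autoImplicit false

namespace Pool.Agent.Helper32.TH.EIMG

open NumberField Module Polynomial IntermediateField
open Pool.Agent.Helper38.FW (InDec)

variable (p : ℕ) [Fact p.Prime]

instance enough (K : Type) [Field K] [NumberField K] (i : ℕ) :
    HasEnoughRootsOfUnity (AlgebraicClosure K) (p ^ i) := by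
  have : NeZero ((p ^ i : ℕ) : AlgebraicClosure K) :=
    ⟨Nat.cast_ne_zero.2 (pow_ne_zero _ (Fact.out : p.Prime).ne_zero)⟩
  infer_instance

/-- the embedding of the algebraic closure in the algebraic closure of `ℚ_p` -/
theorem exists_emb (K : Type) [Field K] [NumberField K] (τ : AlgebraicClosure K →+* ℂ_[p]) :
    ∃ τ' : AlgebraicClosure K →+* PadicAlgCl p, ∀ x, τ x = algebraMap (PadicAlgCl p) ℂ_[p] (τ' x) := by
  classical
  have hinj : Function.Injective (algebraMap (PadicAlgCl p) ℂ_[p]) := RingHom.injective _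
  have h1 : ∀ x, ∃ y, algebraMap (PadicAlgCl p) ℂ_[p] y = τ x := by
    intro x
    have halg : IsAlgebraic ℚ x := by
      have : Algebra.IsAlgebraic ℚ (AlgebraicClosure K) :=
        Algebra.IsAlgebraic.trans ℚ K (AlgebraicClosure K)
      exact Algebra.IsAlgebraic.isAlgebraic x
    have hint := halg.isIntegral
    have hsp : ((minpoly ℚ x).map (algebraMap ℚ (PadicAlgCl p))).Splits := IsAlgClosed.splits _
    have hne : (minpoly ℚ x).map (algebraMap ℚ (PadicAlgCl p)) ≠ 0 :=
      Polynomial.map_ne_zero (minpoly.ne_zero hint)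
    have hroot : τ x ∈ (((minpoly ℚ x).map (algebraMap ℚ (PadicAlgCl p))).map
        (algebraMap (PadicAlgCl p) ℂ_[p])).roots := by
      rw [Polynomial.mem_roots (Polynomial.map_ne_zero hne), Polynomial.map_map, IsRoot.def,
        Polynomial.eval_map]
      have h2 : ((algebraMap (PadicAlgCl p) ℂ_[p]).comp (algebraMap ℚ (PadicAlgCl p))) =
          τ.comp (algebraMap ℚ (AlgebraicClosure K)) := RingHom.ext_rat _ _
      rw [h2, ← Polynomial.hom_eval₂]
      have h3 : Polynomial.eval₂ (algebraMap ℚ (AlgebraicClosure K)) x (minpoly ℚ x) = 0 :=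
        minpoly.aeval ℚ x
      rw [h3, map_zero]
    rw [hsp.roots_map] at hroot
    obtain ⟨y, _, hy⟩ := Multiset.mem_map.1 hroot
    exact ⟨y, hy⟩
  choose f hf using h1
  refine ⟨⟨⟨⟨f, ?_⟩, ?_⟩, ?_, ?_⟩, fun x => (hf x).symm⟩
  · apply hinj; rw [hf, map_one, map_one]
  · intro x y; apply hinj; rw [hf, map_mul, map_mul, hf, hf]
  · apply hinj; change algebraMap (PadicAlgCl p) ℂ_[p] (f 0) = _; rw [hf, map_zero, map_zero]
  · intro x y; apply hinj
    change algebraMap (PadicAlgCl p) ℂ_[p] (f (x + y)) =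
      algebraMap (PadicAlgCl p) ℂ_[p] (f x + f y)
    rw [hf, map_add, map_add, hf, hf]

/-- the Eisenstein polynomial over `ℤ_p` -/
theorem irr (n : ℕ) : Irreducible (((cyclotomic (p ^ (n + 1)) ℤ_[p]).comp (X + 1)).map
    (algebraMap ℤ_[p] ℚ_[p])) := by
  have hp : p.Prime := Fact.out
  have hZ := cyclotomic_prime_pow_comp_X_add_one_isEisensteinAt p n
  have hmon : ((cyclotomic (p ^ (n + 1)) ℤ_[p]).comp (X + 1)).Monic := by
    rw [show (X + 1 : ℤ_[p][X]) = X + C 1 by simp]
    refine (cyclotomic.monic _ ℤ_[p]).comp (monic_X_add_C 1) fun h => ?_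
    rw [natDegree_X_add_C] at h
    exact zero_ne_one h.symm
  have hmonZ : ((cyclotomic (p ^ (n + 1)) ℤ).comp (X + 1)).Monic := by
    rw [show (X + 1 : ℤ[X]) = X + C 1 by simp]
    refine (cyclotomic.monic _ ℤ).comp (monic_X_add_C 1) fun h => ?_
    rw [natDegree_X_add_C] at h
    exact zero_ne_one h.symm
  have hmap : (cyclotomic (p ^ (n + 1)) ℤ_[p]).comp (X + 1) =
      ((cyclotomic (p ^ (n + 1)) ℤ).comp (X + 1)).map (Int.castRingHom ℤ_[p]) := by
    rw [Polynomial.map_comp, map_cyclotomic]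
    simp
  have hnd : ((cyclotomic (p ^ (n + 1)) ℤ_[p]).comp (X + 1)).natDegree =
      ((cyclotomic (p ^ (n + 1)) ℤ).comp (X + 1)).natDegree := by
    rw [hmap, hmonZ.natDegree_map]
  have hpos : 0 < ((cyclotomic (p ^ (n + 1)) ℤ_[p]).comp (X + 1)).natDegree := by
    rw [natDegree_comp, show (X + 1 : ℤ_[p][X]) = X + C 1 by simp, natDegree_X_add_C, mul_one,
      natDegree_cyclotomic]
    exact Nat.totient_pos.2 (pow_pos hp.pos _)
  have hprime : (Ideal.span {(p : ℤ_[p])}).IsPrime := by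
    rw [Ideal.span_singleton_prime (by exact_mod_cast hp.ne_zero)]
    exact PadicInt.prime_p
  have hE : ((cyclotomic (p ^ (n + 1)) ℤ_[p]).comp (X + 1)).IsEisensteinAt
      (Ideal.span {(p : ℤ_[p])}) := by
    refine Monic.isEisensteinAt_of_mem_of_notMem hmon hprime.ne_top ?_ ?_
    · intro i hi
      rw [hnd] at hi
      have h1 := hZ.mem hi
      rw [hmap, coeff_map, Ideal.mem_span_singleton]
      have h2 := Ideal.mem_span_singleton.1 h1
      have h3 := map_dvd (Int.castRingHom ℤ_[p]) h2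
      simpa using h3
    · have h0 : ((cyclotomic (p ^ (n + 1)) ℤ_[p]).comp (X + 1)).coeff 0 = p := by
        rw [coeff_zero_eq_eval_zero, eval_comp]
        simp only [eval_add, eval_X, eval_one, zero_add]
        exact eval_one_cyclotomic_prime_pow n
      rw [h0, Ideal.span_singleton_pow, Ideal.mem_span_singleton]
      rintro ⟨t, ht⟩
      have h1 : (p : ℤ_[p]) ≠ 0 := by exact_mod_cast hp.ne_zero
      have h2 : (1 : ℤ_[p]) = p * t := by
        apply mul_left_cancel₀ h1
        rw [mul_one]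
        nth_rewrite 1 [ht]
        ring
      exact PadicInt.prime_p.not_isUnit (IsUnit.of_mul_eq_one _ h2.symm)
  have h1 := hE.irreducible hprime hmon.isPrimitive hpos
  exact (hmon.irreducible_iff_irreducible_map_fraction_map).1 h1

/-- restriction of an automorphism -/
theorem exists_g (K : Type) [Field K] [NumberField K] (τ' : AlgebraicClosure K →+* PadicAlgCl p)
    (E : IntermediateField ℚ_[p] (PadicAlgCl p))
    (hE : ∀ x : K, τ' (algebraMap K (AlgebraicClosure K) x) ∈ E)
    (s : PadicAlgCl p ≃ₐ[E] PadicAlgCl p) :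
    ∃ g : AlgebraicClosure K ≃ₐ[K] AlgebraicClosure K, ∀ x, τ' (g x) = s (τ' x) := by
  letI : Algebra K (PadicAlgCl p) := (τ'.comp (algebraMap K (AlgebraicClosure K))).toAlgebra
  letI : Algebra (AlgebraicClosure K) (PadicAlgCl p) := τ'.toAlgebra
  have : IsScalarTower K (AlgebraicClosure K) (PadicAlgCl p) :=
    IsScalarTower.of_algebraMap_eq (fun _ => rfl)
  let s' : PadicAlgCl p ≃ₐ[K] PadicAlgCl p :=
    AlgEquiv.ofRingEquiv (f := s.toRingEquiv) (fun x => s.commutes ⟨_, hE x⟩)
  exact ⟨s'.restrictNormal (AlgebraicClosure K), fun x => s'.restrictNormal_commutes _ x⟩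

theorem norm_eq (E : IntermediateField ℚ_[p] (PadicAlgCl p))
    (s : PadicAlgCl p ≃ₐ[E] PadicAlgCl p) (y : PadicAlgCl p) : ‖s y‖ = ‖y‖ := by
  have h := spectralNorm_eq_of_equiv (K := ℚ_[p]) (s.restrictScalars ℚ_[p]) y
  exact h.symm

theorem deg_bound (K : Type) [Field K] [NumberField K] (τ : AlgebraicClosure K →+* ℂ_[p])
    (d : ℕ) (hd : 0 < d)
    (hcon : ∀ g : AlgebraicClosure K ≃ₐ[K] AlgebraicClosure K, InDec τ g →
      cyclotomicCharacter (AlgebraicClosure K) p
        (g : AlgebraicClosure K ≃+* AlgebraicClosure K) ^ d = 1) :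
    ∃ m : ℕ, ∀ c : ℕ, (p ^ (c + 1)).totient ≤ m * d := by
  classical
  have hp : p.Prime := Fact.out
  obtain ⟨τ', hτ'⟩ := exists_emb p K τ
  let b := Module.finBasis ℚ K
  let S : Set (PadicAlgCl p) :=
    Set.range (fun i => τ' (algebraMap K (AlgebraicClosure K) (b i)))
  have hSfin : Finite S := Set.finite_range _
  let E : IntermediateField ℚ_[p] (PadicAlgCl p) := adjoin ℚ_[p] S
  have hfin : FiniteDimensional ℚ_[p] E :=
    finiteDimensional_adjoin (fun x _ => (Algebra.IsAlgebraic.isAlgebraic x).isIntegral)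
  have hE : ∀ x : K, τ' (algebraMap K (AlgebraicClosure K) x) ∈ E := by
    intro x
    rw [← b.sum_repr x, map_sum, map_sum]
    refine sum_mem fun i _ => ?_
    rw [Algebra.smul_def, map_mul, map_mul]
    refine mul_mem ?_ (subset_adjoin _ _ ⟨i, rfl⟩)
    have h1 : τ' (algebraMap K (AlgebraicClosure K) (algebraMap ℚ K ((b.repr x) i))) =
        algebraMap ℚ_[p] (PadicAlgCl p) (((b.repr x) i : ℚ) : ℚ_[p]) := by
      simp
    rw [h1]
    exact E.algebraMap_mem _
  refine ⟨finrank ℚ_[p] E, fun c => ?_⟩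
  obtain ⟨ζ, hζ⟩ := HasEnoughRootsOfUnity.exists_primitiveRoot (AlgebraicClosure K) (p ^ (c + 1))
  have hpos : 0 < p ^ (c + 1) := pow_pos hp.pos _
  have hζ1 : ζ ^ p ^ (c + 1) = 1 := hζ.pow_eq_one
  have : Algebra.IsAlgebraic E (PadicAlgCl p) := Algebra.IsAlgebraic.tower_top (K := ℚ_[p]) E
  have : IsAlgClosure E (PadicAlgCl p) := ⟨inferInstance, inferInstance⟩
  have hint : IsIntegral E (τ' ζ) := Algebra.IsIntegral.isIntegral _
  have hcard : (minpoly E (τ' ζ)).natDegree ≤ d := by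
    have h1 : Fintype.card ((minpoly E (τ' ζ)).rootSet (PadicAlgCl p)) =
        (minpoly E (τ' ζ)).natDegree :=
      card_rootSet_eq_natDegree (Algebra.IsSeparable.isSeparable E (τ' ζ))
        (IsAlgClosed.splits _)
    rw [← h1]
    have h2 : ∀ x : (minpoly E (τ' ζ)).rootSet (PadicAlgCl p), ∃ u : ℤ_[p],
        u ∈ (nthRoots d (1 : ℤ_[p])).toFinset ∧ (x : PadicAlgCl p) =
          τ' ζ ^ (u.toZModPow (c + 1)).val := by
      intro x
      have h3 : IsConjRoot E (τ' ζ) x := (isConjRoot_iff_mem_minpoly_rootSet hint).2 x.2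
      obtain ⟨s, hs⟩ := isConjRoot_iff_exists_algEquiv.1 h3.symm
      obtain ⟨g, hg⟩ := exists_g p K τ' E hE s
      have hdec : InDec τ g := by
        intro y
        rw [hτ', hτ', hg, ← PadicComplex.coe_eq, ← PadicComplex.coe_eq,
          PadicComplex.norm_extends, PadicComplex.norm_extends, norm_eq]
      refine ⟨(cyclotomicCharacter (AlgebraicClosure K) p
        (g : AlgebraicClosure K ≃+* AlgebraicClosure K)).val, ?_, ?_⟩
      · rw [Multiset.mem_toFinset, mem_nthRoots hd, ← Units.val_pow_eq_pow_val, hcon g hdec,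
          Units.val_one]
      · have h4 := cyclotomicCharacter.spec p (g : AlgebraicClosure K ≃+* AlgebraicClosure K) ζ hζ1
        have h5 : (g : AlgebraicClosure K ≃+* AlgebraicClosure K) ζ = g ζ := rfl
        rw [← hs, ← hg, ← h5, h4, map_pow]
    choose f hf1 hf2 using h2
    have h4 : Function.Injective (fun x => (⟨f x, hf1 x⟩ :
        (nthRoots d (1 : ℤ_[p])).toFinset)) := by
      intro x y hxy
      have h5 : f x = f y := congrArg Subtype.val hxy
      apply Subtype.ext
      rw [hf2 x, hf2 y, h5]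
    calc Fintype.card ((minpoly E (τ' ζ)).rootSet (PadicAlgCl p))
        ≤ Fintype.card ((nthRoots d (1 : ℤ_[p])).toFinset) := Fintype.card_le_of_injective _ h4
      _ = (nthRoots d (1 : ℤ_[p])).toFinset.card := Fintype.card_coe _
      _ ≤ Multiset.card (nthRoots d (1 : ℤ_[p])) := Multiset.toFinset_card_le _
      _ ≤ d := card_nthRoots d 1
  have hfin1 : FiniteDimensional E E⟮τ' ζ⟯ := adjoin.finiteDimensional hint
  have hfin2 : FiniteDimensional ℚ_[p] E⟮τ' ζ⟯ := Module.Finite.trans E _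
  have hfree : Module.Free E E⟮τ' ζ⟯ := Module.Free.of_divisionRing _ _
  have hfree' : Module.Free ℚ_[p] E := Module.Free.of_divisionRing _ _
  have h6 : finrank ℚ_[p] E⟮τ' ζ⟯ = finrank ℚ_[p] E * (minpoly E (τ' ζ)).natDegree := by
    rw [← adjoin.finrank hint, finrank_mul_finrank]
  let z : E⟮τ' ζ⟯ := ⟨τ' ζ, mem_adjoin_simple_self E (τ' ζ)⟩
  have hz : IsPrimitiveRoot z (p ^ (c + 1)) := by
    refine IsPrimitiveRoot.of_map_of_injective (f := algebraMap E⟮τ' ζ⟯ (PadicAlgCl p)) ?_
      (algebraMap E⟮τ' ζ⟯ (PadicAlgCl p)).injective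
    exact hζ.map_of_injective τ'.injective
  have hroot : aeval (z - 1) (((cyclotomic (p ^ (c + 1)) ℤ_[p]).comp (X + 1)).map
      (algebraMap ℤ_[p] ℚ_[p])) = 0 := by
    rw [Polynomial.map_comp, map_cyclotomic, aeval_comp]
    have h7 : aeval (z - 1) (((X : ℤ_[p][X]) + 1).map (algebraMap ℤ_[p] ℚ_[p])) = z := by
      simp
    rw [h7, aeval_def, ← eval_map, map_cyclotomic]
    exact hz.isRoot_cyclotomic hpos
  have hmon : (((cyclotomic (p ^ (c + 1)) ℤ_[p]).comp (X + 1)).map
      (algebraMap ℤ_[p] ℚ_[p])).Monic := by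
    refine Monic.map _ ?_
    rw [show (X + 1 : ℤ_[p][X]) = X + C 1 by simp]
    refine (cyclotomic.monic _ ℤ_[p]).comp (monic_X_add_C 1) fun h => ?_
    rw [natDegree_X_add_C] at h
    exact zero_ne_one h.symm
  have h8 := minpoly.eq_of_irreducible_of_monic (irr p c) hroot hmon
  have h9 : (minpoly ℚ_[p] (z - 1)).natDegree = (p ^ (c + 1)).totient := by
    rw [← h8]
    have hmon' : ((cyclotomic (p ^ (c + 1)) ℤ_[p]).comp (X + 1)).Monic := by
      rw [show (X + 1 : ℤ_[p][X]) = X + C 1 by simp]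
      refine (cyclotomic.monic _ ℤ_[p]).comp (monic_X_add_C 1) fun h => ?_
      rw [natDegree_X_add_C] at h
      exact zero_ne_one h.symm
    rw [hmon'.natDegree_map, natDegree_comp, show (X + 1 : ℤ_[p][X]) = X + C 1 by simp,
      natDegree_X_add_C, mul_one, natDegree_cyclotomic]
  calc (p ^ (c + 1)).totient = (minpoly ℚ_[p] (z - 1)).natDegree := h9.symm
    _ ≤ finrank ℚ_[p] E⟮τ' ζ⟯ := minpoly.natDegree_le _
    _ = finrank ℚ_[p] E * (minpoly E (τ' ζ)).natDegree := h6
    _ ≤ finrank ℚ_[p] E * d := Nat.mul_le_mul_left _ hcard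

/-- PACKET E_IMG -/
theorem e_img : Pool.Agent.Helper38.TH.E_IMG := by
  intro p _ K _ _ τ d hd
  by_contra hcon
  push Not at hcon
  have hp : p.Prime := Fact.out
  obtain ⟨m, hm⟩ := deg_bound p K τ d hd hcon
  have h8 := hm (m * d + 1)
  rw [Nat.totient_prime_pow_succ hp] at h8
  have h9 : m * d + 1 < p ^ (m * d + 1) := Nat.lt_pow_self hp.one_lt
  have h10 : p ^ (m * d + 1) * 1 ≤ p ^ (m * d + 1) * (p - 1) :=
    Nat.mul_le_mul_left _ (by have := hp.two_le; omega)
  omega

end Pool.Agent.Helper32.TH.EIMG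

namespace Pool.Agent.Helper32.TH

/-- PACKET E_IMG -/
theorem e_img : Pool.Agent.Helper38.TH.E_IMG := EIMG.e_img

end Pool.Agent.Helper32.TH
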